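import Pool.Agent.helper74.VD.SpecA3

/-!
# Project VD, block A, row ANSD: nonstationary phase in every dimension (adapted from helper13, VQ row VNS)
-/

set_option autoImplicit false

open scoped ContDiff Topology ComplexConjugate ENNReal InnerProductSpace
open MeasureTheory Filter Set

namespace Pool.Agent.VD

/-- the exponential factor -/
theorem ANSD_e {d : ℕ} (R : ℝ) (ξ : V d) : ContDiff ℝ ∞ (fun v : V d =>
    Complex.exp (((R * ⟪ξ, v⟫_ℝ : ℝ) : ℂ) * Complex.I)) := by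
  have h1 : ContDiff ℝ ∞ (fun v : V d => ⟪ξ, v⟫_ℝ) := (innerSL ℝ ξ).contDiff
  have h3 : ContDiff ℝ ∞ (fun v : V d => ((R * ⟪ξ, v⟫_ℝ : ℝ) : ℂ)) :=
    Complex.ofRealCLM.contDiff.comp (contDiff_const.mul h1)
  exact (h3.mul contDiff_const).cexp

theorem ANSD_fd {d : ℕ} (R : ℝ) (ξ : V d) (hξ : ξ ≠ 0) (v : V d) :
    fderiv ℝ (fun v : V d => Complex.exp (((R * ⟪ξ, v⟫_ℝ : ℝ) : ℂ) * Complex.I)) v
      (‖ξ‖⁻¹ • ξ) = (Complex.I * (R * ‖ξ‖ : ℝ)) * Complex.exp (((R * ⟪ξ, v⟫_ℝ : ℝ) : ℂ) * Complex.I) := by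
  have h0 : (‖ξ‖ : ℝ) ≠ 0 := norm_ne_zero_iff.2 hξ
  have h1 : HasFDerivAt (fun v : V d => (R * ⟪ξ, v⟫_ℝ : ℝ)) (R • (innerSL ℝ ξ : V d →L[ℝ] ℝ)) v := by
    have ha : HasFDerivAt (fun v : V d => ⟪ξ, v⟫_ℝ) (innerSL ℝ ξ : V d →L[ℝ] ℝ) v := (innerSL ℝ ξ : V d →L[ℝ] ℝ).hasFDerivAt
    exact ha.const_mul R
  have h2 := (Complex.ofRealCLM.hasFDerivAt.comp v h1)
  have h3 := (h2.mul_const Complex.I).cexp
  have h4 := h3.fderiv
  have h5 : (fun v : V d => Complex.exp (((R * ⟪ξ, v⟫_ℝ : ℝ) : ℂ) * Complex.I)) =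
    fun v : V d => Complex.exp ((Complex.ofRealCLM ∘ fun v : V d => (R * ⟪ξ, v⟫_ℝ : ℝ)) v * Complex.I) := by
    funext v
    rfl
  rw [h5, h4]
  have h8 : ⟪ξ, ‖ξ‖⁻¹ • ξ⟫_ℝ = ‖ξ‖ := by
    rw [real_inner_smul_right, real_inner_self_eq_norm_sq]
    field_simp
  have h9 : (innerSL ℝ ξ : V d →L[ℝ] ℝ) (‖ξ‖⁻¹ • ξ) = ‖ξ‖ := h8
  simp only [smul_apply, ContinuousLinearMap.comp_apply, h9, smul_eq_mul, Complex.ofRealCLM_apply, Function.comp]
  ring

theorem ANSD_der {d : ℕ} (A : V d → ℂ) (hA : ContDiff ℝ ∞ A) (k : ℕ) (n v : V d) :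
    fderiv ℝ (fun v => iteratedFDeriv ℝ k A v (fun _ => n)) v n = iteratedFDeriv ℝ (k + 1) A v (fun _ => n) := by
  have h1 : DifferentiableAt ℝ (iteratedFDeriv ℝ k A) v :=
    (hA.differentiable_iteratedFDeriv (by exact_mod_cast WithTop.coe_lt_top _)) v
  have h2 := (ContinuousMultilinearMap.apply ℝ (fun _ : Fin k => V d) ℂ (fun _ => n)).hasFDerivAt.comp v h1.hasFDerivAt
  have h3 : (fun v => iteratedFDeriv ℝ k A v (fun _ => n)) =
      (⇑(ContinuousMultilinearMap.apply ℝ (fun _ : Fin k => V d) ℂ (fun _ => n)) ∘ iteratedFDeriv ℝ k A) := by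
    funext v
    rfl
  rw [h3, h2.fderiv, iteratedFDeriv_succ_apply_left]
  rfl

theorem ANSD_cont {d : ℕ} (A : V d → ℂ) (hA : ContDiff ℝ ∞ A) (k : ℕ) (n : V d) :
    ContDiff ℝ ∞ (fun v => iteratedFDeriv ℝ k A v (fun _ => n)) := by
  have h1 : ContDiff ℝ ∞ (iteratedFDeriv ℝ k A) := hA.iteratedFDeriv_right (by norm_cast)
  exact (ContinuousMultilinearMap.apply ℝ (fun _ : Fin k => V d) ℂ (fun _ => n)).contDiff.comp h1

theorem ANSD_supp {d : ℕ} (A : V d → ℂ) (s : ℝ) (hs : ∀ v, A v ≠ 0 → ‖v‖ ≤ s) (k : ℕ) (v : V d) (hv : s < ‖v‖) :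
    iteratedFDeriv ℝ k A v = 0 := by
  have h1 : A =ᶠ[𝓝 v] fun _ => 0 := by
    have : {w : V d | s < ‖w‖} ∈ 𝓝 v := (isOpen_lt continuous_const continuous_norm).mem_nhds hv
    filter_upwards [this] with w hw
    by_contra h
    exact absurd (hs w h) (not_le.2 hw)
  have h2 := h1.iteratedFDeriv ℝ k
  rw [h2.eq_of_nhds]
  simp

/-- the ball of radius `s` is contained in a cube -/
theorem ANSD_vol (d : ℕ) (s : ℝ) (hs : 0 < s) : volume.real (Metric.closedBall (0 : V d) s) ≤ (2 * s) ^ d := by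
  have h1 : Metric.closedBall (0 : V d) s ⊆ (fun v : V d => (WithLp.ofLp v : Fin d → ℝ)) ⁻¹' (Set.pi univ fun _ => Icc (-s) s) := by
    intro v hv i _
    have h2 : ‖v‖ ≤ s := by simpa [Metric.mem_closedBall, dist_zero_right] using hv
    have h3 : ‖v i‖ ≤ s := (PiLp.norm_apply_le v i).trans h2
    exact abs_le.mp h3
  have hmp := PiLp.volume_preserving_ofLp (Fin d)
  have h4 : volume ((fun v : V d => (WithLp.ofLp v : Fin d → ℝ)) ⁻¹' (Set.pi univ fun _ => Icc (-s) s)) = ENNReal.ofReal (2 * s) ^ d := by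
    have h5 := hmp.measure_preimage (s := Set.pi univ fun _ : Fin d => Icc (-s) s) (MeasurableSet.univ_pi fun _ => measurableSet_Icc).nullMeasurableSet
    have h6 : volume (Set.pi univ fun _ : Fin d => Icc (-s) s) = ENNReal.ofReal (2 * s) ^ d := by
      rw [volume_pi_pi]
      simp only [Real.volume_Icc, Finset.prod_const, Finset.card_univ, Fintype.card_fin]
      congr 2
      ring
    rw [← h6, ← h5]
  have h7 : volume (Metric.closedBall (0 : V d) s) ≤ ENNReal.ofReal (2 * s) ^ d := (measure_mono h1).trans h4.le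
  rw [measureReal_def]
  have h8 : (ENNReal.ofReal (2 * s) ^ d).toReal = (2 * s) ^ d := by
    rw [ENNReal.toReal_pow, ENNReal.toReal_ofReal (by linarith)]
  rw [← h8]
  exact ENNReal.toReal_mono (ENNReal.pow_ne_top ENNReal.ofReal_ne_top) h7

theorem ANSD_main (d K : ℕ) (R s m N : ℝ) (ξ : V d) (A : V d → ℂ) (hR : 0 < R) (hs : 0 < s) (hm : 0 ≤ m) (hN : 0 ≤ N)
    (hξ : ξ ≠ 0) (hA : ContDiff ℝ ∞ A) (hS : ∀ v, A v ≠ 0 → ‖v‖ ≤ s)
    (hD : ∀ v, ‖iteratedFDeriv ℝ K A v‖ ≤ m * N ^ K) :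
    ‖∫ v : V d, A v * Complex.exp (((R * ⟪ξ, v⟫_ℝ : ℝ) : ℂ) * Complex.I)‖ ≤
      (2 * s) ^ d * m * (N / (R * ‖ξ‖)) ^ K := by
  set e : V d → ℂ := fun v => Complex.exp (((R * ⟪ξ, v⟫_ℝ : ℝ) : ℂ) * Complex.I) with he
  set n : V d := ‖ξ‖⁻¹ • ξ with hn
  have h0 : 0 < ‖ξ‖ := norm_pos_iff.2 hξ
  have hec : ContDiff ℝ ∞ e := ANSD_e R ξ
  have hsupp : ∀ k, ∀ v, s < ‖v‖ → iteratedFDeriv ℝ k A v (fun _ => n) = 0 := fun k v hv => by
    rw [ANSD_supp A s hS k v hv]; rfl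
  have hcs : ∀ k, HasCompactSupport (fun v => iteratedFDeriv ℝ k A v (fun _ => n)) := fun k =>
    HasCompactSupport.intro (isCompact_closedBall (0 : V d) s) fun v hv => hsupp k v (by
      simpa [Metric.mem_closedBall, dist_zero_right] using hv)
  have hcc : ∀ k, ContDiff ℝ ∞ (fun v => iteratedFDeriv ℝ k A v (fun _ => n)) := fun k => ANSD_cont A hA k n
  have hint : ∀ (k : ℕ) (g : V d → ℂ), Continuous g → Integrable (fun v => iteratedFDeriv ℝ k A v (fun _ => n) * g v) :=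
    fun k g hg => ((hcc k).continuous.mul hg).integrable_of_hasCompactSupport ((hcs k).mul_right)
  have hstep : ∀ k, ∫ v, iteratedFDeriv ℝ k A v (fun _ => n) * e v =
      (Complex.I / (R * ‖ξ‖ : ℝ)) * ∫ v, iteratedFDeriv ℝ (k + 1) A v (fun _ => n) * e v := fun k => by
    have hfd : ∀ v, fderiv ℝ e v n = (Complex.I * (R * ‖ξ‖ : ℝ)) * e v := fun v => ANSD_fd R ξ hξ v
    have h1 : ∫ v, iteratedFDeriv ℝ k A v (fun _ => n) * fderiv ℝ e v n =
        - ∫ v, fderiv ℝ (fun v => iteratedFDeriv ℝ k A v (fun _ => n)) v n * e v := by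
      refine integral_mul_fderiv_eq_neg_fderiv_mul_of_integrable ?_ ?_ ?_ ?_ ?_
      · simp only [ANSD_der A hA]
        exact hint (k + 1) e hec.continuous
      · simp only [hfd]
        exact hint k _ (continuous_const.mul hec.continuous)
      · exact hint k e hec.continuous
      · exact fun v _ => (hcc k).contDiffAt.differentiableAt (by simp)
      · exact fun v _ => hec.contDiffAt.differentiableAt (by simp)
    simp only [ANSD_der A hA, hfd] at h1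
    have h2 : ∫ v, iteratedFDeriv ℝ k A v (fun _ => n) * ((Complex.I * (R * ‖ξ‖ : ℝ)) * e v) =
        (Complex.I * (R * ‖ξ‖ : ℝ)) * ∫ v, iteratedFDeriv ℝ k A v (fun _ => n) * e v := by
      rw [← integral_const_mul]
      congr 1
      funext v
      ring
    rw [h2] at h1
    have h3 : ((R * ‖ξ‖ : ℝ) : ℂ) ≠ 0 := by
      exact_mod_cast (mul_pos hR h0).ne'
    have h4 : ∫ v, iteratedFDeriv ℝ (k + 1) A v (fun _ => n) * e v =
      -((Complex.I * (R * ‖ξ‖ : ℝ)) * ∫ v, iteratedFDeriv ℝ k A v (fun _ => n) * e v) := by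
      rw [h1, neg_neg]
    rw [h4]
    field_simp
    rw [Complex.I_sq]
    ring
  have hall : ∀ k, ∫ v, iteratedFDeriv ℝ 0 A v (fun _ => n) * e v =
      (Complex.I / (R * ‖ξ‖ : ℝ)) ^ k * ∫ v, iteratedFDeriv ℝ k A v (fun _ => n) * e v := fun k => by
    induction k with
    | zero => simp
    | succ k ih => rw [ih, hstep k, pow_succ]; ring
  have h5 : ∫ v : V d, A v * e v = ∫ v, iteratedFDeriv ℝ 0 A v (fun _ => n) * e v := by
    simp
  have hnn : ‖n‖ = 1 := by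
    rw [hn, norm_smul, norm_inv, norm_norm, inv_mul_cancel₀ h0.ne']
  have hb : ∀ v, ‖iteratedFDeriv ℝ K A v (fun _ => n)‖ ≤ m * N ^ K := fun v => by
    refine ((iteratedFDeriv ℝ K A v).le_opNorm _).trans ?_
    simp only [hnn, Finset.prod_const_one, mul_one]
    exact hD v
  have hee : ∀ v, ‖e v‖ = 1 := fun v => Complex.norm_exp_ofReal_mul_I _
  have h6 : ‖∫ v, iteratedFDeriv ℝ K A v (fun _ => n) * e v‖ ≤ (2 * s) ^ d * (m * N ^ K) := by
    have h7 : ∫ v, iteratedFDeriv ℝ K A v (fun _ => n) * e v =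
        ∫ v in Metric.closedBall (0 : V d) s, iteratedFDeriv ℝ K A v (fun _ => n) * e v := by
      refine (setIntegral_eq_integral_of_forall_compl_eq_zero fun v hv => ?_).symm
      rw [hsupp K v (by simpa [Metric.mem_closedBall, dist_zero_right] using hv), zero_mul]
    rw [h7]
    refine (norm_setIntegral_le_of_norm_le_const (C := m * N ^ K) (isCompact_closedBall (0 : V d) s).measure_lt_top fun v _ => ?_).trans ?_
    · rw [norm_mul, hee, mul_one]
      exact hb v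
    · rw [mul_comm]
      exact mul_le_mul_of_nonneg_right (ANSD_vol d s hs) (by positivity)
  rw [h5, hall K, norm_mul, norm_pow, norm_div, Complex.norm_I, Complex.norm_real,
    Real.norm_of_nonneg (mul_pos hR h0).le]
  calc (1 / (R * ‖ξ‖)) ^ K * ‖∫ v, iteratedFDeriv ℝ K A v (fun _ => n) * e v‖
      ≤ (1 / (R * ‖ξ‖)) ^ K * ((2 * s) ^ d * (m * N ^ K)) :=
        mul_le_mul_of_nonneg_left h6 (by positivity)
    _ = (2 * s) ^ d * m * (N / (R * ‖ξ‖)) ^ K := by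
        rw [div_pow, div_pow, one_pow]; ring

theorem ANSD_proof : ANSD_stmt := fun d K R s m N ξ A hR hs hm hN hξ hA hS hD =>
  ANSD_main d K R s m N ξ A hR hs hm hN hξ hA hS hD

end Pool.Agent.VD
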