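import Pool.Agent.helper94.VD.AllB1

/-!
# Project VD (MP_07c750_an), block B1: volumes of Bowen balls from above, volumes of vertical discs (all lengths, all radii)
-/

set_option autoImplicit false

open scoped InnerProductSpace ContDiff Topology
open MeasureTheory Set Filter

namespace Pool.Agent.VD

noncomputable section

/-- the upper bound for the volume of a Bowen ball of length `n + k` -/
def NGU_stmt : Prop := ∀ (m : ℕ) (c C e0 : ℝ), 0 < c → 1 ≤ C → 0 < e0 → ∃ e1 : ℝ, 0 < e1 ∧ e1 ≤ e0 / 2 ∧ ∀ ρ ρ' : ℝ, 0 < ρ → ρ ≤ e1 → 0 < ρ' → ρ' ≤ e1 → ∃ C' : ℝ, 1 ≤ C' ∧ ∀ (F : ℕ → Z m → Z m) (n k : ℕ), (∀ i, HYP c C e0 (F i)) → (∀ i, F i 0 = 0) →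
  volume {a : Z m | ∀ i ≤ n + k, ‖it F i a‖ ≤ ρ} ≤ ENNReal.ofReal C' * (volume {a : Z m | ∀ i ≤ n, ‖it F i a‖ ≤ ρ'} * volume {a : Z m | ∀ i ≤ k, ‖it (fun j => F (n + j)) i a‖ ≤ ρ'})

/-- vertical discs in Bowen balls -/
def NDV_stmt : Prop := ∀ (m : ℕ) (c C e0 : ℝ), 0 < c → 1 ≤ C → 0 < e0 → ∃ e1 : ℝ, 0 < e1 ∧ e1 ≤ e0 / 2 ∧ ∀ ρ ρ' : ℝ, 0 < ρ → ρ ≤ e1 → 0 < ρ' → ρ' ≤ e1 → ∃ C' : ℝ, 1 ≤ C' ∧ ∀ (F : ℕ → Z m → Z m) (n : ℕ) (x : W m), (∀ i, HYP c C e0 (F i)) → (∀ i, F i 0 = 0) →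
  (‖x‖ ≤ ρ → volume {w : W m | ∀ i ≤ n, ‖it F i (x, w)‖ ≤ ρ} ≤ ENNReal.ofReal C' * volume {a : Z m | ∀ i ≤ n, ‖it F i a‖ ≤ ρ'}) ∧
  (C' * ‖x‖ ≤ ρ → volume {a : Z m | ∀ i ≤ n, ‖it F i a‖ ≤ ρ'} ≤ ENNReal.ofReal C' * volume {w : W m | ∀ i ≤ n, ‖it F i (x, w)‖ ≤ ρ})

/-- the growth factor, `1` for the length `0` -/
def del {m : ℕ} (F : ℕ → Z m → Z m) (n : ℕ) : ℝ := if n = 0 then 1 else dB (fderiv ℝ (it F n) 0)

theorem B1X_cmp (δ u v A B : ENNReal) (h1 : 1 ≤ A * (δ * v)) (h2 : δ * u ≤ B) : u ≤ A * B * v := by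
  calc u = u * 1 := (mul_one u).symm
    _ ≤ u * (A * (δ * v)) := by gcongr
    _ = A * (δ * u) * v := by ring
    _ ≤ A * B * v := by gcongr

theorem B1X_num (D v : ENNReal) (x y A : ℝ) (hy : 0 < y) (hA1 : x ≤ A) (hA2 : 1 / y ≤ A) (h1 : D * v ≤ ENNReal.ofReal x) (h2 : ENNReal.ofReal y ≤ D * v) :
    D * v ≤ ENNReal.ofReal A ∧ 1 ≤ ENNReal.ofReal A * (D * v) := by
  refine ⟨h1.trans (ENNReal.ofReal_le_ofReal hA1), ?_⟩
  calc (1 : ENNReal) = ENNReal.ofReal (1 / y) * ENNReal.ofReal y := by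
        rw [← ENNReal.ofReal_mul (by positivity), one_div, inv_mul_cancel₀ hy.ne', ENNReal.ofReal_one]
    _ ≤ ENNReal.ofReal A * (D * v) := by gcongr

theorem B1X_num1 (D v : ENNReal) (y A : ℝ) (hy : 0 < y) (hA2 : 1 / y ≤ A) (h2 : ENNReal.ofReal y ≤ D * v) :
    1 ≤ ENNReal.ofReal A * (D * v) := by
  calc (1 : ENNReal) = ENNReal.ofReal (1 / y) * ENNReal.ofReal y := by
        rw [← ENNReal.ofReal_mul (by positivity), one_div, inv_mul_cancel₀ hy.ne', ENNReal.ofReal_one]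
    _ ≤ ENNReal.ofReal A * (D * v) := by gcongr

theorem B1X_unif (m : ℕ) (c C e0 : ℝ) (hc : 0 < c) (hC : 1 ≤ C) (he0 : 0 < e0) : ∃ e1 : ℝ, 0 < e1 ∧ e1 ≤ e0 / 2 ∧ ∀ ρ : ℝ, 0 < ρ → ρ ≤ e1 → ∃ A : ℝ, 1 ≤ A ∧ ∀ (F : ℕ → Z m → Z m) (n : ℕ), (∀ i, HYP c C e0 (F i)) → (∀ i, F i 0 = 0) →
    ENNReal.ofReal (del F n) * volume {a : Z m | ∀ i ≤ n, ‖it F i a‖ ≤ ρ} ≤ ENNReal.ofReal A ∧
    1 ≤ ENNReal.ofReal A * (ENNReal.ofReal (del F n) * volume {a : Z m | ∀ i ≤ n, ‖it F i a‖ ≤ ρ}) ∧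
    ∀ x : W m, (‖x‖ ≤ ρ → ENNReal.ofReal (del F n) * volume {w : W m | ∀ i ≤ n, ‖it F i (x, w)‖ ≤ ρ} ≤ ENNReal.ofReal A) ∧
      (A * ‖x‖ ≤ ρ → 1 ≤ ENNReal.ofReal A * (ENNReal.ofReal (del F n) * volume {w : W m | ∀ i ≤ n, ‖it F i (x, w)‖ ≤ ρ})) := by
  obtain ⟨ea, Ka, hea, hea', hKa, hA⟩ := B1_VFU m c C e0 hc hC he0
  obtain ⟨eb, Kb, heb, heb', hKb, hB⟩ := B1_VDC m c C e0 hc hC he0
  refine ⟨min ea eb, lt_min hea heb, (min_le_left _ _).trans hea', ?_⟩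
  intro ρ hρ hρe
  have r1 : ρ ≤ ea := hρe.trans (min_le_left _ _)
  have r2 : ρ ≤ eb := hρe.trans (min_le_right _ _)
  obtain ⟨b, hbdef⟩ : ∃ b : ℝ, b = (volume (Metric.closedBall (0 : Z m) ρ)).toReal := ⟨_, rfl⟩
  obtain ⟨b', hbdef'⟩ : ∃ b : ℝ, b = (volume (Metric.closedBall (0 : W m) ρ)).toReal := ⟨_, rfl⟩
  have hb0 : 0 < b := by
    rw [hbdef]
    exact ENNReal.toReal_pos (Metric.measure_closedBall_pos volume (0 : Z m) hρ).ne' measure_closedBall_lt_top.ne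
  have hb0' : 0 < b' := by
    rw [hbdef']
    exact ENNReal.toReal_pos (Metric.measure_closedBall_pos volume (0 : W m) hρ).ne' measure_closedBall_lt_top.ne
  have hbv : volume (Metric.closedBall (0 : Z m) ρ) = ENNReal.ofReal b := by
    rw [hbdef, ENNReal.ofReal_toReal measure_closedBall_lt_top.ne]
  have hbv' : volume (Metric.closedBall (0 : W m) ρ) = ENNReal.ofReal b' := by
    rw [hbdef', ENNReal.ofReal_toReal measure_closedBall_lt_top.ne]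
  have hKa0 : 0 < Ka := by linarith
  have hKb0 : 0 < Kb := by linarith
  have p1 : 0 < ρ ^ (2 * m) := pow_pos hρ _
  have p2 : 0 < ρ ^ m := pow_pos hρ _
  obtain ⟨A, hAdef⟩ : ∃ A : ℝ, A = Ka * ρ ^ (2 * m) + 1 / (ρ ^ (2 * m) / Ka) + Kb * ρ ^ m + 1 / (ρ ^ m / Kb) + b + 1 / b + b' + 1 / b' + Kb + 1 := ⟨_, rfl⟩
  have t1 : 0 < Ka * ρ ^ (2 * m) := by positivity
  have t2 : 0 < 1 / (ρ ^ (2 * m) / Ka) := by positivity
  have t3 : 0 < Kb * ρ ^ m := by positivity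
  have t4 : 0 < 1 / (ρ ^ m / Kb) := by positivity
  have t5 : 0 < 1 / b := by positivity
  have t6 : 0 < 1 / b' := by positivity
  refine ⟨A, by rw [hAdef]; linarith, ?_⟩
  intro F n hF hF0
  rcases Nat.eq_zero_or_pos n with hn | hn
  · subst hn
    have d1 : del F 0 = 1 := if_pos rfl
    have s1 : {a : Z m | ∀ i ≤ 0, ‖it F i a‖ ≤ ρ} = Metric.closedBall (0 : Z m) ρ := by
      ext a
      rw [mem_closedBall_zero_iff]
      constructor
      · intro h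
        exact h 0 le_rfl
      · intro h i hi
        have hi0 : i = 0 := by omega
        subst hi0
        exact h
    have s2 : ∀ x : W m, ‖x‖ ≤ ρ → {w : W m | ∀ i ≤ 0, ‖it F i (x, w)‖ ≤ ρ} = Metric.closedBall (0 : W m) ρ := by
      intro x hx
      ext w
      rw [mem_closedBall_zero_iff]
      constructor
      · intro h
        have h1 : ‖((x, w) : Z m)‖ ≤ ρ := h 0 le_rfl
        exact (norm_snd_le ((x, w) : Z m)).trans h1
      · intro h i hi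
        have hi0 : i = 0 := by omega
        subst hi0
        show ‖((x, w) : Z m)‖ ≤ ρ
        rw [Prod.norm_def]
        exact max_le hx h
    rw [d1, ENNReal.ofReal_one, one_mul, s1, hbv]
    have q1 := B1X_num 1 (ENNReal.ofReal b) b b A hb0 (by rw [hAdef]; linarith) (by rw [hAdef]; linarith) (by rw [one_mul]) (by rw [one_mul])
    rw [one_mul] at q1
    refine ⟨q1.1, q1.2, ?_⟩
    intro x
    constructor
    · intro hx
      rw [s2 x hx, hbv', one_mul]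
      exact ENNReal.ofReal_le_ofReal (by rw [hAdef]; linarith)
    · intro hx
      have hA1 : 1 ≤ A := by rw [hAdef]; linarith
      have hx' : ‖x‖ ≤ ρ := by nlinarith [norm_nonneg x]
      rw [s2 x hx', hbv']
      exact B1X_num1 1 (ENNReal.ofReal b') b' A hb0' (by rw [hAdef]; linarith) (by rw [one_mul])
  · have d1 : del F n = dB (fderiv ℝ (it F n) 0) := if_neg (by omega)
    rw [d1]
    obtain ⟨u1, u2⟩ := hA F n ρ hF hF0 hn hρ r1
    have q1 := B1X_num _ _ _ _ A (by positivity) (by rw [hAdef]; linarith) (by rw [hAdef]; linarith) u1 u2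
    refine ⟨q1.1, q1.2, ?_⟩
    intro x
    constructor
    · intro hx
      obtain ⟨v1, _⟩ := hB F n ρ x hF hF0 hn hρ r2 hx
      exact v1.trans (ENNReal.ofReal_le_ofReal (by rw [hAdef]; linarith))
    · intro hx
      have hA1 : 1 ≤ A := by rw [hAdef]; linarith
      have hA2 : Kb ≤ A := by rw [hAdef]; linarith
      have hx' : ‖x‖ ≤ ρ := by nlinarith [norm_nonneg x]
      have hx'' : Kb * ‖x‖ ≤ ρ := (mul_le_mul_of_nonneg_right hA2 (norm_nonneg x)).trans hx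
      obtain ⟨_, v2⟩ := hB F n ρ x hF hF0 hn hρ r2 hx'
      exact B1X_num1 _ _ _ A (by positivity) (by rw [hAdef]; linarith) (v2 hx'')

theorem B1X_fd (m : ℕ) (c C e0 : ℝ) (he0 : 0 < e0) (F : ℕ → Z m → Z m) (n : ℕ) (hF : ∀ i, HYP c C e0 (F i)) (h0 : ∀ i, F i 0 = 0) :
    fderiv ℝ (it F n) 0 = pl (fun i => fderiv ℝ (F i) 0) n := by
  have hz : ∀ i < n, ‖it F i 0‖ < e0 := fun i _ => by rw [NGV_it F h0, norm_zero]; exact he0
  obtain ⟨L, _, hL2, _, hL4⟩ := B1_NDE m c C e0 F n 0 he0 hF hz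
  rw [hL4]
  refine NGV_pl _ _ n fun i hi => ?_
  rw [hL2 i hi, NGV_it F h0]

theorem B1X_qm (m : ℕ) (c C e0 : ℝ) (hc : 0 < c) (hC : 1 ≤ C) (he0 : 0 < e0) : ∃ K : ℝ, 1 ≤ K ∧ ∀ (F : ℕ → Z m → Z m) (n k : ℕ), (∀ i, HYP c C e0 (F i)) → (∀ i, F i 0 = 0) →
    0 ≤ del F n ∧ 0 ≤ del (fun j => F (n + j)) k ∧ del F n * del (fun j => F (n + j)) k ≤ K * del F (n + k) := by
  obtain ⟨K, hK, hQ⟩ := B1_LQM m c C hc hC
  have hnn : ∀ (G : ℕ → Z m → Z m) (j : ℕ), 0 ≤ del G j := by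
    intro G j
    unfold del
    split_ifs
    · exact zero_le_one
    · exact abs_nonneg _
  refine ⟨K, hK, ?_⟩
  intro F n k hF h0
  refine ⟨hnn F n, hnn _ k, ?_⟩
  rcases Nat.eq_zero_or_pos n with hn | hn
  · subst hn
    have e1 : (fun j => F (0 + j)) = F := by funext j; rw [Nat.zero_add]
    have d1 : del F 0 = 1 := if_pos rfl
    rw [e1, Nat.zero_add, d1, one_mul]
    calc del F k = 1 * del F k := (one_mul _).symm
      _ ≤ K * del F k := mul_le_mul_of_nonneg_right hK (hnn F k)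
  · rcases Nat.eq_zero_or_pos k with hk | hk
    · subst hk
      have d1 : del (fun j => F (n + j)) 0 = 1 := if_pos rfl
      rw [d1, mul_one, add_zero]
      calc del F n = 1 * del F n := (one_mul _).symm
        _ ≤ K * del F n := mul_le_mul_of_nonneg_right hK (hnn F n)
    · have d1 : del F n = dB (fderiv ℝ (it F n) 0) := if_neg (by omega)
      have d2 : del (fun j => F (n + j)) k = dB (fderiv ℝ (it (fun j => F (n + j)) k) 0) := if_neg (by omega)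
      have d3 : del F (n + k) = dB (fderiv ℝ (it F (n + k)) 0) := if_neg (by omega)
      have hball : (0 : Z m) ∈ Metric.ball (0 : Z m) e0 := Metric.mem_ball_self he0
      have hL : ∀ i, LH c C (fderiv ℝ (F i) 0) := fun i => (hF i).lh 0 hball
      have h1 := (hQ (fun i => fderiv ℝ (F i) 0) hL n k hn hk).2
      rw [d1, d2, d3, B1X_fd m c C e0 he0 F n hF h0, B1X_fd m c C e0 he0 F (n + k) hF h0,
        B1X_fd m c C e0 he0 (fun j => F (n + j)) k (fun i => hF (n + i)) (fun i => h0 (n + i))]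
      exact h1

theorem B1_NGU : NGU_stmt := by
  intro m c C e0 hc hC he0
  obtain ⟨e1, he1, he1', hU⟩ := B1X_unif m c C e0 hc hC he0
  obtain ⟨K, hK, hQ⟩ := B1X_qm m c C e0 hc hC he0
  refine ⟨e1, he1, he1', ?_⟩
  intro ρ ρ' hρ hρe hρ' hρe'
  obtain ⟨A, hA1, hA⟩ := hU ρ hρ hρe
  obtain ⟨B, hB1, hB⟩ := hU ρ' hρ' hρe'
  have hA0 : 0 < A := by linarith
  have hB0 : 0 < B := by linarith
  have hK0 : 0 < K := by linarith
  refine ⟨B ^ 2 * K * A, ?_, ?_⟩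
  · have h1 : 1 ≤ B ^ 2 := one_le_pow₀ hB1
    have h2 : 1 ≤ B ^ 2 * K := one_le_mul_of_one_le_of_one_le h1 hK
    exact one_le_mul_of_one_le_of_one_le h2 hA1
  intro F n k hF h0
  obtain ⟨g1, g2, g3⟩ := hQ F n k hF h0
  obtain ⟨a1, _, _⟩ := hA F (n + k) hF h0
  obtain ⟨_, b1, _⟩ := hB F n hF h0
  obtain ⟨_, b2, _⟩ := hB (fun j => F (n + j)) k (fun i => hF (n + i)) (fun i => h0 (n + i))
  set v := volume {a : Z m | ∀ i ≤ n + k, ‖it F i a‖ ≤ ρ}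
  set v1 := volume {a : Z m | ∀ i ≤ n, ‖it F i a‖ ≤ ρ'}
  set v2 := volume {a : Z m | ∀ i ≤ k, ‖it (fun j => F (n + j)) i a‖ ≤ ρ'}
  have hD : ENNReal.ofReal (del F n) * ENNReal.ofReal (del (fun j => F (n + j)) k) ≤ ENNReal.ofReal K * ENNReal.ofReal (del F (n + k)) := by
    rw [← ENNReal.ofReal_mul g1, ← ENNReal.ofReal_mul hK0.le]
    exact ENNReal.ofReal_le_ofReal g3
  calc v = v * (1 * 1) := by rw [one_mul, mul_one]
    _ ≤ v * ((ENNReal.ofReal B * (ENNReal.ofReal (del F n) * v1)) * (ENNReal.ofReal B * (ENNReal.ofReal (del (fun j => F (n + j)) k) * v2))) := by gcongr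
    _ = ENNReal.ofReal B * ENNReal.ofReal B * ((ENNReal.ofReal (del F n) * ENNReal.ofReal (del (fun j => F (n + j)) k)) * v) * (v1 * v2) := by ring
    _ ≤ ENNReal.ofReal B * ENNReal.ofReal B * ((ENNReal.ofReal K * ENNReal.ofReal (del F (n + k))) * v) * (v1 * v2) := by gcongr
    _ = ENNReal.ofReal B * ENNReal.ofReal B * ENNReal.ofReal K * (ENNReal.ofReal (del F (n + k)) * v) * (v1 * v2) := by ring
    _ ≤ ENNReal.ofReal B * ENNReal.ofReal B * ENNReal.ofReal K * ENNReal.ofReal A * (v1 * v2) := by gcongr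
    _ = ENNReal.ofReal (B ^ 2 * K * A) * (v1 * v2) := by
        rw [ENNReal.ofReal_mul (by positivity), ENNReal.ofReal_mul (by positivity), pow_two, ENNReal.ofReal_mul hB0.le]

theorem B1_NDV : NDV_stmt := by
  intro m c C e0 hc hC he0
  obtain ⟨e1, he1, he1', hU⟩ := B1X_unif m c C e0 hc hC he0
  refine ⟨e1, he1, he1', ?_⟩
  intro ρ ρ' hρ hρe hρ' hρe'
  obtain ⟨A, hA1, hA⟩ := hU ρ hρ hρe
  obtain ⟨B, hB1, hB⟩ := hU ρ' hρ' hρe'
  have hA0 : 0 < A := by linarith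
  have hB0 : 0 < B := by linarith
  have hAB : A ≤ A * B := le_mul_of_one_le_right hA0.le hB1
  refine ⟨A * B, by linarith, ?_⟩
  intro F n x hF h0
  obtain ⟨_, _, a3⟩ := hA F n hF h0
  obtain ⟨b1, b2, _⟩ := hB F n hF h0
  constructor
  · intro hx
    have h := B1X_cmp _ _ _ _ _ b2 ((a3 x).1 hx)
    rw [← ENNReal.ofReal_mul hB0.le, mul_comm B A] at h
    exact h
  · intro hx
    have hx' : A * ‖x‖ ≤ ρ := (mul_le_mul_of_nonneg_right hAB (norm_nonneg x)).trans hx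
    have h := B1X_cmp _ _ _ _ _ ((a3 x).2 hx') b1
    rw [← ENNReal.ofReal_mul hA0.le] at h
    exact h

end

end Pool.Agent.VD
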