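import Pool.Agent.helper94.VD.SpecDPR
import Pool.Agent.helper94.VD.B1X

/-!
# Project VD (MP_07c750_an), block B3, DPR: assembly
-/

set_option autoImplicit false

open scoped ContDiff Topology InnerProductSpace ENNReal
open MeasureTheory Filter Set

namespace Pool.Agent.VD

noncomputable section

theorem DPR_proof (hDPL : DPL_stmt) (hDBX : DBX_stmt) (hDQM : DQM_stmt) (hDCE : DCE_stmt) (hDVC : DVC_stmt) : DPR_stmt := by
  intro m C cs Cs e0 e1 hC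
  by_cases hS : 1 ≤ Cs ∧ 0 < e0 ∧ 0 < e1
  swap
  · refine ⟨1, 1, le_rfl, one_pos, ?_⟩
    intro Γ _ _ K G Φ D κs hG hSc hSEC
    exfalso
    refine hS ⟨hSEC.C1, hSEC.ep, ?_⟩
    have h1 := hSEC.el
    have h2 := hSEC.C1
    have h3 := hSEC.ep
    have h4 : 0 < 4 * Cs * e0 := by positivity
    linarith
  obtain ⟨hCs, he0, he1⟩ := hS
  obtain ⟨C', r, c1, C1, e2, hC', hr, hr1, hc1, hC1, he2, he2r, hCE⟩ := hDCE m C hC
  obtain ⟨Ma, hMa, hBX⟩ := hDBX m C C' r hC hC' hr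
  obtain ⟨Mb, hMb, hQM⟩ := hDQM m c1 C1 hc1 hC1
  obtain ⟨Mc, e4, hMc, he4, hVC⟩ := hDVC m C C' r c1 C1 e2 cs Cs e0 e1 hC hC' hr hc1 hC1 he2 he2r hCs he0 he1
  obtain ⟨e5, Md, he5, _, hMd, hVD⟩ := B1_VDC m c1 C1 e2 hc1 hC1 he2
  have ha0 : 0 < Ma := by linarith
  have hb0 : 0 < Mb := by linarith
  have hc0 : 0 < Mc := by linarith
  have hd0 : 0 < Md := by linarith
  -- the constant
  obtain ⟨K1, hK1⟩ : ∃ K1 : ℝ, K1 = Mc ^ m * Md * Mb * Ma * Mc := ⟨_, rfl⟩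
  have hMcm : 1 ≤ Mc ^ m := one_le_pow₀ hMc
  have hK1a : Mb * Ma ≤ K1 := by
    rw [hK1]
    have h1 : 1 ≤ Mc ^ m * Md := one_le_mul_of_one_le_of_one_le hMcm hMd
    have h2 : Mb * Ma ≤ Mc ^ m * Md * (Mb * Ma) := le_mul_of_one_le_left (by positivity) h1
    have h3 : Mc ^ m * Md * (Mb * Ma) ≤ Mc ^ m * Md * (Mb * Ma) * Mc := le_mul_of_one_le_right (by positivity) hMc
    calc Mb * Ma ≤ Mc ^ m * Md * (Mb * Ma) * Mc := h2.trans h3
      _ = Mc ^ m * Md * Mb * Ma * Mc := by ring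
  have hMbMa : 1 ≤ Mb * Ma := one_le_mul_of_one_le_of_one_le hMb hMa
  refine ⟨K1, min e4 (Mc * e5), hMbMa.trans hK1a, lt_min he4 (by positivity), ?_⟩
  intro Γ _ _ K G Φ D κs hG hSc hSEC z l b n0 gam hz hl1 hl2 hb hn0 hgam
  obtain ⟨g, y, e, κ, F, τ, hch, hy, hg⟩ := hCE Γ K G Φ D hG z l b n0 gam hz (by linarith) (by linarith) hn0 hgam
  have hball : (0 : Z m) ∈ Metric.ball (0 : Z m) e2 := Metric.mem_ball_self he2
  have hL : ∀ i, LH c1 C1 (fderiv ℝ (F i) 0) := fun i => (hch.tr i).hyp.lh 0 hball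
  have hF0 : ∀ i, F i 0 = 0 := fun i => (hch.tr i).F0
  have hF : ∀ i, HYP c1 C1 e2 (F i) := fun i => (hch.tr i).hyp
  -- the pieces
  have hyj : ∀ j ≤ b, y (j * n0) = lft (gam j) (Φ (j * n0 * l) z) := by
    intro j hj
    rw [hy, hg j hj]
    push_cast
    rfl
  have hpiece : ∀ j < b, dB (pl (fun i => fderiv ℝ (F (j * n0 + i)) 0) n0) ≤ Ma * |(Bx Φ (gam (j + 1) * (gam j)⁻¹) (n0 * l) (lft (gam j) (Φ (j * n0 * l) z))).det| := by
    intro j hj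
    obtain ⟨p1, p2⟩ := hDPL m C C' r c1 C1 e2 l Γ K G Φ D hr hG g y e κ F τ hch (j * n0) n0
    have e3 : j * n0 + n0 = (j + 1) * n0 := by ring
    rw [e3] at p1 p2
    rw [hg (j + 1) hj, hg j hj.le] at p1 p2
    have h5 : (1 : ℝ) ≤ n0 := by exact_mod_cast hn0
    have h6 := hBX Γ K G Φ D hG hSc (y (j * n0)) (hch.ys _) (y ((j + 1) * n0)) (hch.ys _) (e (j * n0)) (e ((j + 1) * n0)) (κ (j * n0)) (hch.fr _) (hch.fr _) (hch.ch _)
      (gam (j + 1) * (gam j)⁻¹) (n0 * l) (by nlinarith) p1.symm (pl (fun i => fderiv ℝ (F (j * n0 + i)) 0) n0) p2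
    rw [hyj j hj.le] at h6
    exact h6
  have hlow : ∀ j, 1 ≤ Mb * dB (pl (fun i => fderiv ℝ (F (j * n0 + i)) 0) n0) := fun j => (hQM (fun i => fderiv ℝ (F (j * n0 + i)) 0) (fun i => hL _) n0 hn0).2
  constructor
  · intro j hj
    have h1 := hlow j
    have h2 := hpiece j hj
    calc (1 : ℝ) ≤ Mb * dB (pl (fun i => fderiv ℝ (F (j * n0 + i)) 0) n0) := h1
      _ ≤ Mb * (Ma * |(Bx Φ (gam (j + 1) * (gam j)⁻¹) (n0 * l) (lft (gam j) (Φ (j * n0 * l) z))).det|) := mul_le_mul_of_nonneg_left h2 hb0.le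
      _ = (Mb * Ma) * |(Bx Φ (gam (j + 1) * (gam j)⁻¹) (n0 * l) (lft (gam j) (Φ (j * n0 * l) z))).det| := by ring
      _ ≤ K1 * |(Bx Φ (gam (j + 1) * (gam j)⁻¹) (n0 * l) (lft (gam j) (Φ (j * n0 * l) z))).det| := mul_le_mul_of_nonneg_right hK1a (abs_nonneg _)
  · intro ρ hρ hρ0
    have hρ4 : ρ ≤ e4 := hρ0.trans (min_le_left _ _)
    have hρ5 : ρ / Mc ≤ e5 := by
      rw [div_le_iff₀ hc0]
      calc ρ ≤ Mc * e5 := hρ0.trans (min_le_right _ _)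
        _ = e5 * Mc := mul_comm _ _
    have hN : 1 ≤ b * n0 := Nat.one_le_iff_ne_zero.mpr (by positivity)
    have hρM : 0 < ρ / Mc := by positivity
    obtain ⟨_, v2⟩ := hVD F (b * n0) (ρ / Mc) 0 hF hF0 hN hρM hρ5 (by rw [norm_zero]; exact hρM.le)
    have v3 := v2 (by rw [norm_zero, mul_zero]; exact hρM.le)
    rw [B1X_fd m c1 C1 e2 he2 F (b * n0) hF hF0] at v3
    have v4 := hVC Γ K G Φ D κs hG hSEC l g y e κ F τ z hch hz hy (b * n0) ρ hρ hρ4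
    set S1 := volume {w : W m | ∀ i ≤ b * n0, ‖it F i (0, w)‖ ≤ ρ / Mc}
    set S2 := volume {w : W m | ‖w‖ ≤ e0 ∧ ∀ i ≤ b * n0, D (Φ (i * l) z) (Φ (i * l) (κs z (0, w))) ≤ ρ}
    -- the determinant
    have hdet : dB (pl (fun i => fderiv ℝ (F i) 0) (b * n0)) ≤ (Mb * Ma) ^ b * ∏ j ∈ Finset.range b, |(Bx Φ (gam (j + 1) * (gam j)⁻¹) (n0 * l) (lft (gam j) (Φ (j * n0 * l) z))).det| := by
      have h1 := (hQM (fun i => fderiv ℝ (F i) 0) hL n0 hn0).1 b hb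
      have h2 : ∏ j ∈ Finset.range b, dB (pl (fun i => fderiv ℝ (F (j * n0 + i)) 0) n0) ≤ ∏ j ∈ Finset.range b, (Ma * |(Bx Φ (gam (j + 1) * (gam j)⁻¹) (n0 * l) (lft (gam j) (Φ (j * n0 * l) z))).det|) := by
        refine Finset.prod_le_prod (fun j _ => abs_nonneg _) ?_
        intro j hj
        exact hpiece j (Finset.mem_range.mp hj)
      rw [Finset.prod_mul_distrib, Finset.prod_const, Finset.card_range] at h2
      calc dB (pl (fun i => fderiv ℝ (F i) 0) (b * n0)) ≤ Mb ^ b * ∏ j ∈ Finset.range b, dB (pl (fun i => fderiv ℝ (F (j * n0 + i)) 0) n0) := h1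
        _ ≤ Mb ^ b * (Ma ^ b * ∏ j ∈ Finset.range b, |(Bx Φ (gam (j + 1) * (gam j)⁻¹) (n0 * l) (lft (gam j) (Φ (j * n0 * l) z))).det|) := mul_le_mul_of_nonneg_left h2 (by positivity)
        _ = (Mb * Ma) ^ b * ∏ j ∈ Finset.range b, |(Bx Φ (gam (j + 1) * (gam j)⁻¹) (n0 * l) (lft (gam j) (Φ (j * n0 * l) z))).det| := by rw [mul_pow]; ring
    set Q := ∏ j ∈ Finset.range b, |(Bx Φ (gam (j + 1) * (gam j)⁻¹) (n0 * l) (lft (gam j) (Φ (j * n0 * l) z))).det|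
    have hQ0 : 0 ≤ Q := Finset.prod_nonneg fun j _ => abs_nonneg _
    have hpow : Mc ^ m * Md * (Mb * Ma) ^ b * Mc ≤ K1 ^ b := by
      have h1 : K1 ^ b = (Mc ^ m * Md * Mc) ^ b * (Mb * Ma) ^ b := by rw [hK1, ← mul_pow]; ring
      have h2 : 1 ≤ Mc ^ m * Md * Mc := one_le_mul_of_one_le_of_one_le (one_le_mul_of_one_le_of_one_le hMcm hMd) hMc
      have h3 : Mc ^ m * Md * Mc ≤ (Mc ^ m * Md * Mc) ^ b := le_self_pow₀ h2 (by omega)
      rw [h1]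
      calc Mc ^ m * Md * (Mb * Ma) ^ b * Mc = (Mc ^ m * Md * Mc) * (Mb * Ma) ^ b := by ring
        _ ≤ (Mc ^ m * Md * Mc) ^ b * (Mb * Ma) ^ b := mul_le_mul_of_nonneg_right h3 (by positivity)
    have hρm : ρ ^ m = (Mc ^ m * Md) * ((ρ / Mc) ^ m / Md) := by
      rw [div_pow]
      field_simp
    calc ENNReal.ofReal (ρ ^ m) = ENNReal.ofReal (Mc ^ m * Md) * ENNReal.ofReal ((ρ / Mc) ^ m / Md) := by
          rw [← ENNReal.ofReal_mul (by positivity), ← hρm]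
      _ ≤ ENNReal.ofReal (Mc ^ m * Md) * (ENNReal.ofReal (dB (pl (fun i => fderiv ℝ (F i) 0) (b * n0))) * S1) := by gcongr
      _ ≤ ENNReal.ofReal (Mc ^ m * Md) * (ENNReal.ofReal ((Mb * Ma) ^ b * Q) * (ENNReal.ofReal Mc * S2)) := by gcongr
      _ = ENNReal.ofReal (Mc ^ m * Md * (Mb * Ma) ^ b * Mc * Q) * S2 := by
          have e6 : Mc ^ m * Md * (Mb * Ma) ^ b * Mc * Q = (Mc ^ m * Md) * (((Mb * Ma) ^ b * Q) * Mc) := by ring
          have q1 : 0 ≤ Mc ^ m * Md := by positivity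
          have q2 : 0 ≤ (Mb * Ma) ^ b * Q := by positivity
          rw [e6, ENNReal.ofReal_mul (p := Mc ^ m * Md) q1, ENNReal.ofReal_mul (p := (Mb * Ma) ^ b * Q) q2]
          ring
      _ ≤ ENNReal.ofReal (K1 ^ b * Q) * S2 := by
          gcongr

end

end Pool.Agent.VD
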