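import Pool.Agent.helper94.VD.SpecDPR

/-!
# Project VD (MP_07c750_an), block B3, row DTM: times and distances
-/

set_option autoImplicit false

open scoped ContDiff Topology InnerProductSpace ENNReal
open MeasureTheory Filter Set

namespace Pool.Agent.VD

noncomputable section

/-- accumulated return times -/
def DTM_T {m : ℕ} (F : ℕ → Z m → Z m) (τ : ℕ → Z m → ℝ) (a : Z m) : ℕ → ℝ
  | 0 => 0
  | n + 1 => τ n (it F n a) + DTM_T F τ a n

theorem DTM_QQ {m : ℕ} (a : Z m) : |QQ a| ≤ ‖a‖ ^ 2 := by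
  have h1 : |QQ a| ≤ ‖a.1‖ * ‖a.2‖ := abs_real_inner_le_norm a.1 a.2
  have h2 : ‖a.1‖ ≤ ‖a‖ := norm_fst_le a
  have h3 : ‖a.2‖ ≤ ‖a‖ := norm_snd_le a
  nlinarith [norm_nonneg a.1, norm_nonneg a.2, norm_nonneg a]

/-- telescoping -/
theorem DTM_tel {m : ℕ} (c C1 l ρ : ℝ) (F : ℕ → Z m → Z m) (τ : ℕ → Z m → ℝ) (a : Z m) (N : ℕ) (hc : 0 < c) (hC1 : 0 ≤ C1)
    (hq : ∀ i < N, QQ (it F i a) + c / 2 * ‖it F i a‖ ^ 2 ≤ QQ (it F (i + 1) a)) (ht : ∀ i < N, |τ i (it F i a) - l| ≤ C1 * ‖it F i a‖ ^ 2) (ha : ∀ i ≤ N, ‖it F i a‖ ≤ ρ) :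
    ∀ i ≤ N, |i * l - DTM_T F τ a i| ≤ 4 * C1 / c * ρ ^ 2 := by
  have key : ∀ i ≤ N, |i * l - DTM_T F τ a i| ≤ 2 * C1 / c * (QQ (it F i a) - QQ (it F 0 a)) := by
    intro i
    induction i with
    | zero =>
      intro _
      show |((0 : ℕ) : ℝ) * l - 0| ≤ 2 * C1 / c * (QQ (it F 0 a) - QQ (it F 0 a))
      rw [Nat.cast_zero, zero_mul, sub_zero, abs_zero, sub_self, mul_zero]
    | succ i ih =>
      intro hi
      have h1 := ih (by omega)
      have h2 := hq i (by omega)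
      have h3 := ht i (by omega)
      have e1 : ((i + 1 : ℕ) : ℝ) * l - DTM_T F τ a (i + 1) = (i * l - DTM_T F τ a i) + (l - τ i (it F i a)) := by
        show ((i + 1 : ℕ) : ℝ) * l - (τ i (it F i a) + DTM_T F τ a i) = _
        push_cast
        ring
      rw [e1]
      have h4 : |l - τ i (it F i a)| ≤ 2 * C1 / c * (QQ (it F (i + 1) a) - QQ (it F i a)) := by
        rw [abs_sub_comm]
        refine h3.trans ?_
        have h5 : c / 2 * ‖it F i a‖ ^ 2 ≤ QQ (it F (i + 1) a) - QQ (it F i a) := by linarith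
        have h6 : 2 * C1 / c * (c / 2 * ‖it F i a‖ ^ 2) ≤ 2 * C1 / c * (QQ (it F (i + 1) a) - QQ (it F i a)) := mul_le_mul_of_nonneg_left h5 (by positivity)
        have h7 : 2 * C1 / c * (c / 2 * ‖it F i a‖ ^ 2) = C1 * ‖it F i a‖ ^ 2 := by field_simp
        linarith
      calc |(i * l - DTM_T F τ a i) + (l - τ i (it F i a))| ≤ |i * l - DTM_T F τ a i| + |l - τ i (it F i a)| := abs_add_le _ _
        _ ≤ 2 * C1 / c * (QQ (it F i a) - QQ (it F 0 a)) + 2 * C1 / c * (QQ (it F (i + 1) a) - QQ (it F i a)) := add_le_add h1 h4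
        _ = 2 * C1 / c * (QQ (it F (i + 1) a) - QQ (it F 0 a)) := by ring
  intro i hi
  have h1 := key i hi
  have h2 : QQ (it F i a) ≤ ρ ^ 2 := by
    have h3 := DTM_QQ (it F i a)
    have h4 := ha i hi
    have h5 : ‖it F i a‖ ^ 2 ≤ ρ ^ 2 := pow_le_pow_left₀ (norm_nonneg _) h4 2
    linarith [le_abs_self (QQ (it F i a))]
  have h3 : -ρ ^ 2 ≤ QQ (it F 0 a) := by
    have h3 := DTM_QQ (it F 0 a)
    have h4 := ha 0 (Nat.zero_le _)
    have h5 : ‖it F 0 a‖ ^ 2 ≤ ρ ^ 2 := pow_le_pow_left₀ (norm_nonneg _) h4 2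
    linarith [neg_abs_le (QQ (it F 0 a))]
  have h4 : 2 * C1 / c * (QQ (it F i a) - QQ (it F 0 a)) ≤ 2 * C1 / c * (2 * ρ ^ 2) := mul_le_mul_of_nonneg_left (by linarith) (by positivity)
  calc |i * l - DTM_T F τ a i| ≤ 2 * C1 / c * (2 * ρ ^ 2) := h1.trans h4
    _ = 4 * C1 / c * ρ ^ 2 := by ring

theorem DTM_proof (hSC1 : SC1_stmt) (hNFD : NFD_stmt) (hDCH : DCH_stmt) : DTM_stmt := by
  intro m C C' r c1 C1 e2 hC hC' hr hc1 hC1 he2 he2r
  have hC0 : 0 < C := by linarith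
  have hC'0 : 0 < C' := by linarith
  have hC10 : 0 < C1 := by linarith
  obtain ⟨eN, heN, heN2, hN⟩ := hNFD m c1 C1 e2 hc1 hC1 he2
  obtain ⟨B, hB⟩ : ∃ B : ℝ, B = C' + 4 * C1 / c1 := ⟨_, rfl⟩
  have hB0 : 0 < B := by rw [hB]; positivity
  have hB1 : C' ≤ B := by
    rw [hB]
    have : 0 ≤ 4 * C1 / c1 := by positivity
    linarith
  have hB2 : 4 * C1 / c1 ≤ B := by rw [hB]; linarith
  obtain ⟨e3, he3⟩ : ∃ e3 : ℝ, e3 = min eN (min e2 (min 1 (1 / (2 * C * C * B)))) := ⟨_, rfl⟩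
  have he30 : 0 < e3 := by rw [he3]; exact lt_min heN (lt_min he2 (lt_min one_pos (by positivity)))
  have s1 : e3 ≤ eN := by rw [he3]; exact min_le_left _ _
  have s2 : e3 ≤ e2 := by rw [he3]; exact (min_le_right _ _).trans (min_le_left _ _)
  have s3 : e3 ≤ 1 := by rw [he3]; exact (min_le_right _ _).trans ((min_le_right _ _).trans (min_le_left _ _))
  have s4 : 2 * C * C * B * e3 ≤ 1 := by
    have h1 : e3 ≤ 1 / (2 * C * C * B) := by rw [he3]; exact (min_le_right _ _).trans ((min_le_right _ _).trans (min_le_right _ _))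
    rw [le_div_iff₀ (by positivity)] at h1
    linarith
  have hM0 : 0 ≤ C * C' + C * C * B := by positivity
  refine ⟨1 + (C * C' + C * C * B), e3, by linarith, he30, s2, ?_⟩
  intro Γ _ _ K G Φ D hG l g y e κ F τ hch N a ρ hρ hρ3 ha i hi
  obtain ⟨hch1, _, hch3⟩ := hDCH (m + 1) C Γ K G Φ D hG
  have hρ1 : ρ ≤ 1 := hρ3.trans s3
  have hρsq : ρ ^ 2 ≤ ρ := by nlinarith
  have hbound : ∀ j ≤ N, ‖it F j a‖ ≤ e2 := fun j hj => (ha j hj).trans (hρ3.trans s2)
  -- the orbit in the charts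
  have horb : ∀ j ≤ N, κ j (it F j a) = MM Φ (g j * (g 0)⁻¹) (DTM_T F τ a j, κ 0 a) := by
    intro j
    induction j with
    | zero =>
      intro _
      show κ 0 a = MM Φ (g 0 * (g 0)⁻¹) (0, κ 0 a)
      rw [mul_inv_cancel, (hch3 (κ 0 a)).1]
    | succ j ih =>
      intro hj
      have h1 := ((hch.tr j).eq (it F j a) (hbound j (by omega))).1
      have h2 := ih (by omega)
      show κ (j + 1) (F j (it F j a)) = MM Φ (g (j + 1) * (g 0)⁻¹) (τ j (it F j a) + DTM_T F τ a j, κ 0 a)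
      rw [h1, h2]
      have h3 : g (j + 1) * (g 0)⁻¹ = (g (j + 1) * (g j)⁻¹) * (g j * (g 0)⁻¹) := by group
      rw [h3, (hch1 (g j * (g 0)⁻¹) (g (j + 1) * (g j)⁻¹) (τ j (it F j a)) (DTM_T F τ a j) (κ 0 a)).1]
  -- the times
  have htime : |i * l - DTM_T F τ a i| ≤ 4 * C1 / c1 * ρ ^ 2 := by
    refine DTM_tel c1 C1 l ρ F τ a N hc1 hC10.le ?_ ?_ ha i hi
    · intro j hj
      have h1 := (hN (F j) (hch.tr j).hyp (it F j a) 0 ((ha j hj.le).trans (hρ3.trans s1)) (by rw [norm_zero]; exact heN.le)).1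
      rw [sub_zero, (hch.tr j).F0, sub_zero] at h1
      exact h1
    · intro j hj
      exact ((hch.tr j).eq (it F j a) (hbound j hj.le)).2
  set s : ℝ := i * l - DTM_T F τ a i with hs
  have hsB : |s| ≤ B * ρ := by
    calc |s| ≤ 4 * C1 / c1 * ρ ^ 2 := htime
      _ ≤ B * ρ := mul_le_mul hB2 hρsq (by positivity) hB0.le
  set p : P (m + 1) := κ i (it F i a) with hp
  -- the point in the chart
  have hiF : ‖it F i a‖ ≤ ρ := ha i hi
  have hri : ‖it F i a‖ ≤ r := (hbound i hi).trans he2r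
  have hpy : ‖p - y i‖ ≤ C' * ρ := by
    have h1 := ((hSC1 (Z m) (P (m + 1)) ℝ C' r 0 hC' hr).1 (κ i) (hch.ch i).c11 (it F i a) 0 (by rw [sub_zero]; exact hri) (by rw [sub_zero, norm_zero]; exact hr.le)).1
    rw [(hch.ch i).zero, sub_zero] at h1
    exact h1.trans (mul_le_mul_of_nonneg_left hiF hC'0.le)
  have hBρ : C * C * B * ρ ≤ 1 / 2 := by
    have h1 : 2 * C * C * B * ρ ≤ 2 * C * C * B * e3 := mul_le_mul_of_nonneg_left hρ3 (by positivity)
    linarith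
  have hBρ2 : B * ρ ≤ 1 / C := by
    rw [le_div_iff₀ hC0]
    have h1 : B * ρ * C ≤ C * C * B * ρ := by
      have h2 : 0 ≤ B * ρ * C := by positivity
      nlinarith
    linarith
  have hCinv : 1 / C ≤ 1 := by
    rw [div_le_iff₀ hC0]
    linarith
  have hpC : ‖p - y i‖ ≤ 1 / C := hpy.trans ((mul_le_mul_of_nonneg_right hB1 hρ).trans hBρ2)
  have hMM : MM Φ (g i * (g 0)⁻¹) (i * l, κ 0 a) = MM Φ (1 : Γ) (s, p) := by
    have h1 := (hch1 (g i * (g 0)⁻¹) 1 s (DTM_T F τ a i) (κ 0 a)).1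
    rw [one_mul, ← horb i hi, hs, sub_add_cancel] at h1
    exact h1
  rw [hMM]
  -- moving along the flow
  have hz0 : ‖MM Φ (1 : Γ) (0, y i) - y i‖ ≤ 1 / C := by
    rw [(hch3 (y i)).1, sub_self, norm_zero]
    positivity
  have hmove : ‖MM Φ (1 : Γ) (s, p) - p‖ ≤ C * |s| := by
    have hconv : Convex ℝ (Metric.closedBall ((0 : ℝ), y i) (1 / C)) := convex_closedBall _ _
    have hmem : ∀ q : ℝ × P (m + 1), q ∈ Metric.closedBall ((0 : ℝ), y i) (1 / C) → ‖q - (0, y i)‖ ≤ 1 / C := by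
      intro q hq
      rw [Metric.mem_closedBall, dist_eq_norm] at hq
      exact hq
    have h0 : ((0 : ℝ), p) ∈ Metric.closedBall ((0 : ℝ), y i) (1 / C) := by
      rw [Metric.mem_closedBall, dist_eq_norm, Prod.mk_sub_mk, sub_self, Prod.norm_def]
      simp only [norm_zero]
      exact max_le (by positivity) hpC
    have h1 : (s, p) ∈ Metric.closedBall ((0 : ℝ), y i) (1 / C) := by
      rw [Metric.mem_closedBall, dist_eq_norm, Prod.mk_sub_mk, sub_zero, Prod.norm_def]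
      exact max_le (by rw [Real.norm_eq_abs]; exact hsB.trans hBρ2) hpC
    have h2 := hconv.norm_image_sub_le_of_norm_fderiv_le (𝕜 := ℝ) (f := MM Φ (1 : Γ)) (C := C) (x := ((0 : ℝ), p)) (y := (s, p))
      (fun q _ => ((hG.dif 1).differentiable (by simp)) q)
      (fun q hq => (hG.bm 1 (y i) (hch.ys i) (y i) (hch.ys i) 0 (by rw [abs_zero]; norm_num) hz0 q q (hmem q hq) (hmem q hq)).1) h0 h1
    rw [(hch3 p).1] at h2
    have h3 : ‖((s, p) : ℝ × P (m + 1)) - (0, p)‖ = |s| := by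
      rw [Prod.mk_sub_mk, sub_zero, sub_self, Prod.norm_def]
      simp
    rw [h3] at h2
    exact h2
  have hd1 : D (y i) p ≤ C * (C' * ρ) := by
    have h1 := hG.d1 (y i) (hch.ys i) (y i) p (by rw [sub_self, norm_zero]; exact zero_le_one) (hpC.trans hCinv)
    rw [norm_sub_rev] at h1
    exact h1.trans (mul_le_mul_of_nonneg_left hpy hC0.le)
  have hq1 : ‖MM Φ (1 : Γ) (s, p) - y i‖ ≤ 1 := by
    have h1 : MM Φ (1 : Γ) (s, p) - y i = (MM Φ (1 : Γ) (s, p) - p) + (p - y i) := by abel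
    have h2 : C * |s| ≤ 1 / 2 := by
      have h3 : C * |s| ≤ C * (B * ρ) := mul_le_mul_of_nonneg_left hsB hC0.le
      have h4 : C * (B * ρ) ≤ C * C * B * ρ := by
        have h5 : 0 ≤ C * (B * ρ) := by positivity
        nlinarith
      linarith
    have h3 : C' * ρ ≤ 1 / 2 := by
      have h4 : C' * ρ ≤ B * ρ := mul_le_mul_of_nonneg_right hB1 hρ
      have h5 : B * ρ ≤ C * C * B * ρ := by
        have h6 : 0 ≤ B * ρ := by positivity
        have h7 : 1 ≤ C * C := by nlinarith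
        nlinarith
      linarith
    rw [h1]
    exact (norm_add_le _ _).trans (by linarith)
  have hd2 : D p (MM Φ (1 : Γ) (s, p)) ≤ C * (C * (B * ρ)) := by
    have h1 := hG.d1 (y i) (hch.ys i) p (MM Φ (1 : Γ) (s, p)) (hpC.trans hCinv) hq1
    rw [norm_sub_rev] at h1
    refine h1.trans (mul_le_mul_of_nonneg_left (hmove.trans (mul_le_mul_of_nonneg_left hsB hC0.le)) hC0.le)
  calc D (y i) (MM Φ (1 : Γ) (s, p)) ≤ D (y i) p + D p (MM Φ (1 : Γ) (s, p)) := hG.dt _ _ _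
    _ ≤ C * (C' * ρ) + C * (C * (B * ρ)) := add_le_add hd1 hd2
    _ = (C * C' + C * C * B) * ρ := by ring
    _ ≤ (1 + (C * C' + C * C * B)) * ρ := mul_le_mul_of_nonneg_right (by linarith) hρ

end

end Pool.Agent.VD
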