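import Pool.Agent.helper94.VD.SpecDPR

/-!
# Project VD (MP_07c750_an), block B3, row DVC: the disc in the chart and the disc of the section
-/

set_option autoImplicit false

open scoped ContDiff Topology InnerProductSpace ENNReal
open MeasureTheory Filter Set

namespace Pool.Agent.VD

noncomputable section

/-- volumes: inverse of a map with Lipschitz inverse -/
theorem DVC_vol (m : ℕ) (hVLP : VDG.VLP_stmt) : ∃ k : ℝ, 0 < k ∧ ∀ (S T : Set (W m)) (L : ℝ) (θ : W m → W m), 0 ≤ L → (∀ x ∈ S, θ x ∈ T) → (∀ x ∈ S, ∀ y ∈ S, ‖x - y‖ ≤ L * ‖θ x - θ y‖) →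
    volume S ≤ ENNReal.ofReal (k * L ^ Module.finrank ℝ (W m)) * volume T := by
  obtain ⟨k, hk, hV⟩ := hVLP (W m) (W m) rfl
  refine ⟨k, hk, ?_⟩
  intro S T L θ hL hθ hlip
  have hinj : InjOn θ S := by
    intro x hx y hy hxy
    have h1 := hlip x hx y hy
    rw [hxy, sub_self, norm_zero, mul_zero] at h1
    exact sub_eq_zero.mp (norm_le_zero_iff.mp h1)
  have hleft : ∀ x ∈ S, Function.invFunOn θ S (θ x) = x := fun x hx => hinj.leftInvOn_invFunOn hx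
  have h2 := hV (Function.invFunOn θ S) (θ '' S) L hL (by
    rintro _ ⟨x, hx, rfl⟩ _ ⟨y, hy, rfl⟩
    rw [hleft x hx, hleft y hy]
    exact hlip x hx y hy)
  have h3 : S ⊆ Function.invFunOn θ S '' (θ '' S) := fun x hx => ⟨θ x, mem_image_of_mem θ hx, hleft x hx⟩
  calc volume S ≤ volume (Function.invFunOn θ S '' (θ '' S)) := measure_mono h3
    _ ≤ ENNReal.ofReal (k * L ^ Module.finrank ℝ (W m)) * volume (θ '' S) := h2
    _ ≤ ENNReal.ofReal (k * L ^ Module.finrank ℝ (W m)) * volume T := by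
        gcongr
        rintro _ ⟨x, hx, rfl⟩
        exact hθ x hx

theorem DVC_proof (hSC1 : SC1_stmt) (hSFI : SFI_stmt) (hDTM : DTM_stmt) (hVLP : VDG.VLP_stmt) : DVC_stmt := by
  intro m C C' r c1 C1 e2 cs Cs e0 e1 hC hC' hr hc1 hC1 he2 he2r hCs he0 he1
  obtain ⟨M5, hM5, hFI⟩ := hSFI m C hC
  obtain ⟨Mt, e3, hMt, he3, he32, hTM⟩ := hDTM m C C' r c1 C1 e2 hC hC' hr hc1 hC1 he2 he2r
  obtain ⟨k, hk, hvol⟩ := DVC_vol m hVLP
  have hC0 : 0 < C := by linarith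
  have hC'0 : 0 < C' := by linarith
  have hCs0 : 0 < Cs := by linarith
  have hM50 : 0 < M5 := by linarith
  have hMt0 : 0 < Mt := by linarith
  obtain ⟨A, hA⟩ : ∃ A : ℝ, A = 2 * C * C * C' * Cs := ⟨_, rfl⟩
  have hA0 : 0 < A := by rw [hA]; positivity
  have hA1 : C * C' ≤ A := by
    rw [hA]
    have h1 : 1 ≤ 2 * C * Cs := by nlinarith
    calc C * C' = 1 * (C * C') := (one_mul _).symm
      _ ≤ (2 * C * Cs) * (C * C') := mul_le_mul_of_nonneg_right h1 (by positivity)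
      _ = 2 * C * C * C' * Cs := by ring
  have hA2 : 2 * C * C * C' ≤ A := by
    rw [hA]
    exact le_mul_of_one_le_right (by positivity) hCs
  have hA3 : Cs * (C * C') ≤ A := by
    rw [hA]
    have h1 : 1 ≤ 2 * C := by linarith
    calc Cs * (C * C') = 1 * (Cs * (C * C')) := (one_mul _).symm
      _ ≤ (2 * C) * (Cs * (C * C')) := mul_le_mul_of_nonneg_right h1 (by positivity)
      _ = 2 * C * C * C' * Cs := by ring
  obtain ⟨e4, he4⟩ : ∃ e4 : ℝ, e4 = min e3 (min r (min (1 / A) (min (e0 / A) (e1 / A)))) := ⟨_, rfl⟩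
  have he40 : 0 < e4 := by rw [he4]; exact lt_min he3 (lt_min hr (lt_min (by positivity) (lt_min (by positivity) (by positivity))))
  have s1 : e4 ≤ e3 := by rw [he4]; exact min_le_left _ _
  have s2 : e4 ≤ r := by rw [he4]; exact (min_le_right _ _).trans (min_le_left _ _)
  have s3 : A * e4 ≤ 1 := by
    have h1 : e4 ≤ 1 / A := by rw [he4]; exact (min_le_right _ _).trans ((min_le_right _ _).trans (min_le_left _ _))
    rw [le_div_iff₀ hA0] at h1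
    linarith
  have s4 : A * e4 ≤ e0 := by
    have h1 : e4 ≤ e0 / A := by rw [he4]; exact (min_le_right _ _).trans ((min_le_right _ _).trans ((min_le_right _ _).trans (min_le_left _ _)))
    rw [le_div_iff₀ hA0] at h1
    linarith
  have s5 : A * e4 ≤ e1 := by
    have h1 : e4 ≤ e1 / A := by rw [he4]; exact (min_le_right _ _).trans ((min_le_right _ _).trans ((min_le_right _ _).trans (min_le_right _ _)))
    rw [le_div_iff₀ hA0] at h1
    linarith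
  obtain ⟨L, hL⟩ : ∃ L : ℝ, L = M5 * (C * Cs) := ⟨_, rfl⟩
  have hL0 : 0 ≤ L := by rw [hL]; positivity
  obtain ⟨M, hM⟩ : ∃ M : ℝ, M = max Mt (k * L ^ Module.finrank ℝ (W m)) := ⟨_, rfl⟩
  have hM1 : 1 ≤ M := by rw [hM]; exact hMt.trans (le_max_left _ _)
  have hM2 : Mt ≤ M := by rw [hM]; exact le_max_left _ _
  have hM3 : k * L ^ Module.finrank ℝ (W m) ≤ M := by rw [hM]; exact le_max_right _ _
  have hM0 : 0 < M := by linarith
  refine ⟨M, e4, hM1, he40, ?_⟩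
  intro Γ _ _ K G Φ D κs hG hSEC l g y e κ F τ z hch hz hy N ρ hρ hρ4
  have hzS : z ∈ Shl G := hz
  have hsM : ρ / M ≤ ρ := div_le_self hρ.le hM1
  have hs4 : ρ / M ≤ e4 := hsM.trans hρ4
  have hs0 : 0 ≤ ρ / M := by positivity
  have hy0 : y 0 = lft (g 0) z := by
    rw [hy 0, Nat.cast_zero, zero_mul, hG.fl.zero]
  have hlg : ∀ p : P (m + 1), lft (g 0) (lft (g 0)⁻¹ p) = p := by
    intro p
    rw [← hG.lm, mul_inv_cancel, hG.l1]
  have hnl : ∀ (γ : Γ) (p : P (m + 1)), nrm G (lft γ p) = nrm G p := by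
    intro γ p
    have h1 := (hG.hm γ 0 p).1
    have h2 : MM Φ γ (0, p) = lft γ p := by
      show lft γ (Φ 0 p) = lft γ p
      rw [hG.fl.zero]
    rw [h2] at h1
    exact h1
  -- points of the disc
  have hpt : ∀ w' : W m, (∀ i ≤ N, ‖it F i (0, w')‖ ≤ ρ / M) → ‖((0, w') : Z m)‖ ≤ ρ / M := fun w' hw' => hw' 0 (Nat.zero_le N)
  have hka : ∀ w' : W m, ‖((0, w') : Z m)‖ ≤ ρ / M → ‖κ 0 (0, w') - y 0‖ ≤ C' * (ρ / M) ∧ nrm G (κ 0 (0, w')) = 1 ∧ (κ 0 (0, w')).1 = (y 0).1 ∧ LL G (y 0) (e 0) (κ 0 (0, w') - y 0) = (0, w') := by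
    intro w' hw'
    have hr' : ‖((0, w') : Z m)‖ ≤ r := hw'.trans (hs4.trans s2)
    obtain ⟨o1, o2, o3⟩ := (hch.ch 0).on (0, w') hr'
    have h1 := ((hSC1 (Z m) (P (m + 1)) ℝ C' r 0 hC' hr).1 (κ 0) (hch.ch 0).c11 (0, w') 0 (by rw [sub_zero]; exact hr') (by rw [sub_zero, norm_zero]; exact hr.le)).1
    rw [(hch.ch 0).zero, sub_zero] at h1
    refine ⟨h1.trans (mul_le_mul_of_nonneg_left hw' hC'0.le), o1, ?_, o3⟩
    rw [o2]
    show (y 0).1 + e 0 0 = (y 0).1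
    rw [map_zero, add_zero]
  have hCC : C' * (ρ / M) ≤ 1 / C := by
    rw [le_div_iff₀ hC0]
    calc C' * (ρ / M) * C = (C * C') * (ρ / M) := by ring
      _ ≤ A * e4 := mul_le_mul hA1 hs4 hs0 hA0.le
      _ ≤ 1 := s3
  have hCinv : 1 / C ≤ 1 := by
    rw [div_le_iff₀ hC0]
    linarith
  have hex : ∀ w' : W m, (∀ i ≤ N, ‖it F i (0, w')‖ ≤ ρ / M) → ∃ w : W m, ‖w‖ ≤ e1 ∧ κ 0 (0, w') = lft (g 0) (κs z (0, w)) ∧ ‖w‖ ≤ e0 ∧ ∀ i ≤ N, D (Φ (i * l) z) (Φ (i * l) (κs z (0, w))) ≤ ρ := by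
    intro w' hw'
    have hw0 := hpt w' hw'
    obtain ⟨k1, k2, k3, k4⟩ := hka w' hw0
    obtain ⟨u, hu⟩ : ∃ u : P (m + 1), u = lft (g 0)⁻¹ (κ 0 (0, w')) := ⟨_, rfl⟩
    have hpu : lft (g 0) u = κ 0 (0, w') := by rw [hu]; exact hlg _
    have huS : u ∈ Shl G := by
      show nrm G u = 1
      rw [hu, hnl]
      exact k2
    have hu1 : u.1 = z.1 := by
      rw [hu]
      show (g 0)⁻¹ • (κ 0 (0, w')).1 = z.1
      rw [k3, hy0]
      show (g 0)⁻¹ • (g 0 • z.1) = z.1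
      exact inv_smul_smul (g 0) z.1
    have hD : D z u ≤ C * (C' * (ρ / M)) := by
      have h1 : D z u = D (y 0) (κ 0 (0, w')) := by
        rw [← hG.di (g 0) z u, hpu, hy0]
      rw [h1]
      have h2 := hG.d1 (y 0) (hch.ys 0) (y 0) (κ 0 (0, w')) (by rw [sub_self, norm_zero]; exact zero_le_one) (k1.trans (hCC.trans hCinv))
      rw [norm_sub_rev] at h2
      exact h2.trans (mul_le_mul_of_nonneg_left k1 hC0.le)
    have hCCA : C * (C' * (ρ / M)) ≤ A * e4 := by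
      calc C * (C' * (ρ / M)) = (C * C') * (ρ / M) := by ring
        _ ≤ A * e4 := mul_le_mul hA1 hs4 hs0 hA0.le
    obtain ⟨w, hw1, hw2⟩ := hSEC.ver z hzS u huS hu1 (hD.trans (hCCA.trans s4))
    have hw3 : ‖w‖ ≤ A * e4 := by
      calc ‖w‖ ≤ Cs * D z u := hw2
        _ ≤ Cs * (C * (C' * (ρ / M))) := mul_le_mul_of_nonneg_left hD hCs0.le
        _ = (Cs * (C * C')) * (ρ / M) := by ring
        _ ≤ A * e4 := mul_le_mul hA3 hs4 hs0 hA0.le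
    refine ⟨w, hw3.trans s5, ?_, hw3.trans s4, ?_⟩
    · rw [← hw1, hpu]
    · intro i hi
      have h1 := hTM Γ K G Φ D hG l g y e κ F τ hch N (0, w') (ρ / M) hs0 (hs4.trans s1) hw' i hi
      have h2 : D (Φ (i * l) z) (Φ (i * l) (κs z (0, w))) = D (y i) (MM Φ (g i * (g 0)⁻¹) (i * l, κ 0 (0, w'))) := by
        rw [← hG.di (g i) (Φ (i * l) z) (Φ (i * l) (κs z (0, w))), ← hw1, hy i]
        congr 1
        show lft (g i) (Φ (i * l) u) = lft (g i * (g 0)⁻¹) (Φ (i * l) (κ 0 (0, w')))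
        rw [hG.lm, ← hG.lf (g 0)⁻¹, ← hu]
      rw [h2]
      calc D (y i) (MM Φ (g i * (g 0)⁻¹) (i * l, κ 0 (0, w'))) ≤ Mt * (ρ / M) := h1
        _ ≤ M * (ρ / M) := mul_le_mul_of_nonneg_right hM2 hs0
        _ = ρ := by field_simp
  choose! θ hθ1 hθ2 hθ3 hθ4 using hex
  obtain ⟨f1, _, _, _, _, f6, _, _⟩ := hFI Γ K G Φ D hG (y 0) (hch.ys 0) (e 0) (hch.fr 0)
  have hlip : ∀ x ∈ {w : W m | ∀ i ≤ N, ‖it F i (0, w)‖ ≤ ρ / M}, ∀ x' ∈ {w : W m | ∀ i ≤ N, ‖it F i (0, w)‖ ≤ ρ / M}, ‖x - x'‖ ≤ L * ‖θ x - θ x'‖ := by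
    intro x hx x' hx'
    obtain ⟨k1, k2, k3, k4⟩ := hka x (hpt x hx)
    obtain ⟨k1', k2', k3', k4'⟩ := hka x' (hpt x' hx')
    have h1 : (((0 : W m), x - x') : Z m) = LL G (y 0) (e 0) (κ 0 (0, x) - κ 0 (0, x')) := by
      have h2 : κ 0 (0, x) - κ 0 (0, x') = (κ 0 (0, x) - y 0) - (κ 0 (0, x') - y 0) := by abel
      rw [h2, f1.map_sub, k4, k4']
      rw [Prod.mk_sub_mk, sub_zero]
    have h3 : ‖x - x'‖ ≤ M5 * ‖κ 0 (0, x) - κ 0 (0, x')‖ := by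
      calc ‖x - x'‖ ≤ ‖(((0 : W m), x - x') : Z m)‖ := norm_snd_le (((0 : W m), x - x') : Z m)
        _ ≤ M5 * ‖κ 0 (0, x) - κ 0 (0, x')‖ := by rw [h1]; exact f6 _
    have h4 : D (κ 0 (0, x)) (κ 0 (0, x')) ≤ 1 / C := by
      have h5 := hG.d1 (y 0) (hch.ys 0) (κ 0 (0, x)) (κ 0 (0, x')) (k1.trans (hCC.trans hCinv)) (k1'.trans (hCC.trans hCinv))
      have h6 : ‖κ 0 (0, x) - κ 0 (0, x')‖ ≤ 2 * (C' * (ρ / M)) := by
        have h7 : κ 0 (0, x) - κ 0 (0, x') = (κ 0 (0, x) - y 0) - (κ 0 (0, x') - y 0) := by abel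
        rw [h7]
        exact (norm_sub_le _ _).trans (by linarith)
      refine h5.trans ((mul_le_mul_of_nonneg_left h6 hC0.le).trans ?_)
      rw [le_div_iff₀ hC0]
      calc C * (2 * (C' * (ρ / M))) * C = (2 * C * C * C') * (ρ / M) := by ring
        _ ≤ A * e4 := mul_le_mul hA2 hs4 hs0 hA0.le
        _ ≤ 1 := s3
    have h5 : ‖κ 0 (0, x) - κ 0 (0, x')‖ ≤ C * D (κ 0 (0, x)) (κ 0 (0, x')) := hG.d2 (y 0) (hch.ys 0) _ _ (k1.trans hCC) h4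
    have h6 : D (κ 0 (0, x)) (κ 0 (0, x')) ≤ Cs * ‖θ x - θ x'‖ := by
      rw [hθ2 x hx, hθ2 x' hx', hG.di]
      have n1 : ‖((0, θ x) : Z m)‖ = ‖θ x‖ := by rw [Prod.norm_def]; simp
      have n2 : ‖((0, θ x') : Z m)‖ = ‖θ x'‖ := by rw [Prod.norm_def]; simp
      have h7 := hSEC.cmp z hzS (0, θ x) (0, θ x') (by rw [n1]; exact hθ1 x hx) (by rw [n2]; exact hθ1 x' hx')
      have n3 : ‖((0, θ x) : Z m) - (0, θ x')‖ = ‖θ x - θ x'‖ := by
        rw [Prod.mk_sub_mk, sub_zero, Prod.norm_def]; simp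
      rw [n3] at h7
      exact h7
    calc ‖x - x'‖ ≤ M5 * ‖κ 0 (0, x) - κ 0 (0, x')‖ := h3
      _ ≤ M5 * (C * D (κ 0 (0, x)) (κ 0 (0, x'))) := mul_le_mul_of_nonneg_left h5 hM50.le
      _ ≤ M5 * (C * (Cs * ‖θ x - θ x'‖)) := by gcongr
      _ = L * ‖θ x - θ x'‖ := by rw [hL]; ring
  have hmain := hvol {w : W m | ∀ i ≤ N, ‖it F i (0, w)‖ ≤ ρ / M} {w : W m | ‖w‖ ≤ e0 ∧ ∀ i ≤ N, D (Φ (i * l) z) (Φ (i * l) (κs z (0, w))) ≤ ρ} L θ hL0
    (fun x hx => ⟨hθ3 x hx, hθ4 x hx⟩) hlip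
  refine hmain.trans ?_
  gcongr

end

end Pool.Agent.VD
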