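import Pool.Agent.helper93.VD.SpecB4a

/-!
# Project VD, block B4a, row LDS: sums over separated sets in a disc
-/

set_option autoImplicit false

open MeasureTheory Filter Set Topology
open scoped ENNReal

namespace Pool.Agent.VDL

open Pool.Agent.VDE (BB av)
open Pool.Agent.VD (W Z)

/-- sums over fibres -/
theorem LDS_fib {α β : Type} (φ : α → β) (g : α → ENNReal) (G : β → ENNReal) (h : ∀ b : β, ∑' a : {a : α // φ a = b}, g a ≤ G b) :
    ∑' a : α, g a ≤ ∑' b : β, G b := by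
  calc ∑' a : α, g a = ∑' p : (Σ b : β, {a : α // φ a = b}), g (Equiv.sigmaFiberEquiv φ p) := ((Equiv.sigmaFiberEquiv φ).tsum_eq g).symm
    _ = ∑' b : β, ∑' a : {a : α // φ a = b}, g a := ENNReal.tsum_sigma' _
    _ ≤ ∑' b : β, G b := ENNReal.tsum_le_tsum h

/-- disjoint measurable sets in a set -/
theorem LDS_dis {ι S : Type} [MeasurableSpace S] (μ : Measure S) (A : ι → Set S) (X : Set S) (hm : ∀ i, MeasurableSet (A i)) (hd : ∀ i j, i ≠ j → ∀ y, y ∈ A i → y ∈ A j → False)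
    (hX : ∀ i, A i ⊆ X) : ∑' i, μ (A i) ≤ μ X := by
  have h1 : Pairwise (Function.onFun Disjoint A) := by
    intro i j hij
    exact Set.disjoint_left.mpr fun y h1 h2 => hd i j hij y h1 h2
  exact (tsum_meas_le_meas_iUnion_of_disjoint μ hm h1).trans (measure_mono (Set.iUnion_subset hX))

theorem LDS_proof (hLNT : LNT_stmt) : LDS_stmt := by
  intro m C hC
  have hC0 : 0 < C := by linarith
  obtain ⟨v, hv⟩ : ∃ v : ℝ, v = (volume (Metric.ball (0 : W m) 1)).toReal := ⟨_, rfl⟩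
  have hv0 : 0 ≤ v := by rw [hv]; exact ENNReal.toReal_nonneg
  have hvv : volume (Metric.ball (0 : W m) 1) = ENNReal.ofReal v := by
    rw [hv, ENNReal.ofReal_toReal measure_ball_lt_top.ne]
  refine ⟨C * C * 2 ^ m * v + 1, by have : 0 ≤ C * C * 2 ^ m * v := by positivity
                                    linarith, ?_⟩
  intro S _ _ _ _ μ d f ε hV e1 a δ hD ρ T1 T2 β B E hρ hρe hT1 hT2 hCρ hβ hB hEc hEρ hsep hEB
  have hε := hV.ep
  obtain ⟨L1, L2⟩ := hLNT S (W m) μ d f ε C hV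
  obtain ⟨F, hFE, hFc, hFs, hFcov⟩ := L1 T1 (ε / 4) δ E (by linarith)
  have hφ : ∀ θ : E, ∃ x : F, ∀ s ∈ Icc (0 : ℝ) T1, d (f s (δ x)) (f s (δ θ)) ≤ ε / 4 := by
    intro θ
    obtain ⟨x, hx, hx'⟩ := hFcov θ θ.2
    exact ⟨⟨x, hx⟩, hx'⟩
  choose φ hφ' using hφ
  have hsub : ∀ (T : ℝ) (x : S), BB d f T x (ε / 16) ⊆ BB d f T x (16 * ε) := by
    intro T x y hy s hs
    exact (hy s hs).trans (by linarith)
  -- one group
  have hgroup : ∀ x : F, ∑' θ : {θ : E // φ θ = x}, μ (BB d f (T1 + T2) (δ (θ : E)) (16 * ε)) ≤ ENNReal.ofReal C * (μ (BB d f T1 (δ x) (16 * ε)) * ENNReal.ofReal β) := by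
    intro x
    have h1 : ∀ θ : {θ : E // φ θ = x}, μ (BB d f (T1 + T2) (δ (θ : E)) (16 * ε)) ≤ ENNReal.ofReal C * (μ (BB d f T1 (δ x) (16 * ε)) * μ (BB d f T2 (f T1 (δ (θ : E))) (ε / 16))) := by
      intro θ
      refine (hV.up (δ (θ : E)) T1 T2 hT1 hT2).trans ?_
      have h2 : BB d f T1 (δ (θ : E)) (ε / 16) ⊆ BB d f T1 (δ x) (16 * ε) := by
        intro y hy s hs
        have h3 := hφ' θ.1 s hs
        rw [θ.2] at h3
        have h4 := hy s hs
        have h5 := hV.dt (f s (δ x)) (f s (δ (θ : E))) (f s y)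
        linarith
      gcongr
    have h6 : ∑' θ : {θ : E // φ θ = x}, μ (BB d f T2 (f T1 (δ (θ : E))) (ε / 16)) ≤ ENNReal.ofReal β := by
      refine (LDS_dis μ (fun θ : {θ : E // φ θ = x} => BB d f T2 (f T1 (δ (θ : E))) (ε / 16)) ({w | d (f T1 (δ x)) w ≤ ε} ∩ B) (fun θ => (L2 _ _ _).measurableSet) ?_ ?_).trans (hB _)
      · intro θ θ' hne y hy hy'
        have hne' : ((θ : E) : W m) ≠ ((θ' : E) : W m) := fun h => hne (Subtype.ext (Subtype.ext h))
        obtain ⟨s, hs, hs'⟩ := hsep _ θ.1.2 _ θ'.1.2 hne'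
        by_cases hsT : s ≤ T1
        · have h7 := hφ' θ.1 s ⟨hs.1, hsT⟩
          have h8 := hφ' θ'.1 s ⟨hs.1, hsT⟩
          rw [θ.2] at h7
          rw [θ'.2] at h8
          have h9 := hV.dt (f s (δ (θ : E))) (f s (δ x)) (f s (δ (θ' : E)))
          rw [hV.ds (f s (δ (θ : E))) (f s (δ x))] at h9
          linarith
        · have hsT' : T1 < s := not_le.mp hsT
          have hu : s - T1 ∈ Icc (0 : ℝ) T2 := ⟨by linarith, by have := hs.2; linarith⟩
          have e1' : ∀ z : S, f (s - T1) (f T1 z) = f s z := by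
            intro z
            rw [← hV.fa, sub_add_cancel]
          have h7 := hy _ hu
          have h8 := hy' _ hu
          rw [e1'] at h7 h8
          have h9 := hV.dt (f s (δ (θ : E))) (f (s - T1) y) (f s (δ (θ' : E)))
          rw [hV.ds (f (s - T1) y) (f s (δ (θ' : E)))] at h9
          linarith
      · intro θ y hy
        refine ⟨?_, hEB _ θ.1.2 hy⟩
        have h7 := hφ' θ.1 T1 ⟨hT1, le_rfl⟩
        rw [θ.2] at h7
        have h8 := hy 0 ⟨le_rfl, hT2⟩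
        rw [hV.f0, hV.f0] at h8
        have h9 := hV.dt (f T1 (δ x)) (f T1 (δ (θ : E))) y
        show d (f T1 (δ x)) y ≤ ε
        linarith
    calc ∑' θ : {θ : E // φ θ = x}, μ (BB d f (T1 + T2) (δ (θ : E)) (16 * ε))
        ≤ ∑' θ : {θ : E // φ θ = x}, ENNReal.ofReal C * (μ (BB d f T1 (δ x) (16 * ε)) * μ (BB d f T2 (f T1 (δ (θ : E))) (ε / 16))) := ENNReal.tsum_le_tsum h1
      _ = ENNReal.ofReal C * (μ (BB d f T1 (δ x) (16 * ε)) * ∑' θ : {θ : E // φ θ = x}, μ (BB d f T2 (f T1 (δ (θ : E))) (ε / 16))) := by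
          rw [ENNReal.tsum_mul_left, ENNReal.tsum_mul_left]
      _ ≤ ENNReal.ofReal C * (μ (BB d f T1 (δ x) (16 * ε)) * ENNReal.ofReal β) := by gcongr
  -- the discs
  have hdisc : ∑' x : F, μ (BB d f T1 (δ x) (16 * ε)) ≤ ENNReal.ofReal C * ENNReal.ofReal ((2 * ρ) ^ m * v) := by
    have h1 : ∀ x : F, μ (BB d f T1 (δ x) (16 * ε)) ≤ ENNReal.ofReal C * volume {w' : W m | ‖w'‖ ≤ e1 ∧ δ w' ∈ BB d f T1 (δ x) (ε / 16)} := by
      intro x
      exact hD.d2 x T1 ((hEρ x (hFE x.2)).trans hρe) hT1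
    have h2 : ∑' x : F, volume {w' : W m | ‖w'‖ ≤ e1 ∧ δ w' ∈ BB d f T1 (δ x) (ε / 16)} ≤ volume (Metric.closedBall (0 : W m) (2 * ρ)) := by
      refine LDS_dis volume (fun x : F => {w' : W m | ‖w'‖ ≤ e1 ∧ δ w' ∈ BB d f T1 (δ x) (ε / 16)}) _ ?_ ?_ ?_
      · intro x
        have h3 : {w' : W m | ‖w'‖ ≤ e1 ∧ δ w' ∈ BB d f T1 (δ x) (ε / 16)} = Metric.closedBall (0 : W m) e1 ∩ δ ⁻¹' (BB d f T1 (δ x) (ε / 16)) := by
          ext w'
          rw [mem_inter_iff, mem_closedBall_zero_iff]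
          exact Iff.rfl
        rw [h3]
        exact (hD.hc.preimage_isClosed_of_isClosed Metric.isClosed_closedBall (L2 _ _ _)).measurableSet
      · intro x y hne w' hx hy
        have hne' : (x : W m) ≠ (y : W m) := fun h => hne (Subtype.ext h)
        obtain ⟨s, hs, hs'⟩ := hFs x x.2 y y.2 hne'
        have h7 := hx.2 s hs
        have h8 := hy.2 s hs
        have h9 := hV.dt (f s (δ x)) (f s (δ w')) (f s (δ y))
        rw [hV.ds (f s (δ w')) (f s (δ y))] at h9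
        linarith
      · intro x w' hw'
        have h3 := hD.d3 x w' T1 ((hEρ x (hFE x.2)).trans hρe) hw'.1 hT1 (hsub _ _ hw'.2)
        have h4 : ‖(x : W m)‖ ≤ ρ := hEρ x (hFE x.2)
        rw [mem_closedBall_zero_iff]
        calc ‖w'‖ = ‖(w' - x) + x‖ := by rw [sub_add_cancel]
          _ ≤ ‖w' - x‖ + ‖(x : W m)‖ := norm_add_le _ _
          _ ≤ 2 * ρ := by linarith
    have h3 : volume (Metric.closedBall (0 : W m) (2 * ρ)) = ENNReal.ofReal ((2 * ρ) ^ m * v) := by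
      rw [Measure.addHaar_closedBall volume (0 : W m) (by linarith), hvv, finrank_euclideanSpace, Fintype.card_fin, ENNReal.ofReal_mul (by positivity)]
    calc ∑' x : F, μ (BB d f T1 (δ x) (16 * ε)) ≤ ∑' x : F, ENNReal.ofReal C * volume {w' : W m | ‖w'‖ ≤ e1 ∧ δ w' ∈ BB d f T1 (δ x) (ε / 16)} := ENNReal.tsum_le_tsum h1
      _ = ENNReal.ofReal C * ∑' x : F, volume {w' : W m | ‖w'‖ ≤ e1 ∧ δ w' ∈ BB d f T1 (δ x) (ε / 16)} := ENNReal.tsum_mul_left
      _ ≤ ENNReal.ofReal C * ENNReal.ofReal ((2 * ρ) ^ m * v) := by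
          rw [← h3]
          gcongr
  have hall := LDS_fib φ (fun θ : E => μ (BB d f (T1 + T2) (δ θ) (16 * ε))) (fun x : F => ENNReal.ofReal C * (μ (BB d f T1 (δ x) (16 * ε)) * ENNReal.ofReal β)) hgroup
  calc ∑' θ : E, μ (BB d f (T1 + T2) (δ θ) (16 * ε)) ≤ ∑' x : F, ENNReal.ofReal C * (μ (BB d f T1 (δ x) (16 * ε)) * ENNReal.ofReal β) := hall
    _ = ENNReal.ofReal C * ((∑' x : F, μ (BB d f T1 (δ x) (16 * ε))) * ENNReal.ofReal β) := by
        rw [ENNReal.tsum_mul_left, ENNReal.tsum_mul_right]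
    _ ≤ ENNReal.ofReal C * ((ENNReal.ofReal C * ENNReal.ofReal ((2 * ρ) ^ m * v)) * ENNReal.ofReal β) := by gcongr
    _ = ENNReal.ofReal (C * (C * ((2 * ρ) ^ m * v) * β)) := by
        have hp : 0 ≤ C * ((2 * ρ) ^ m * v) := by positivity
        rw [← ENNReal.ofReal_mul hC0.le, ← ENNReal.ofReal_mul hp, ← ENNReal.ofReal_mul hC0.le]
    _ ≤ ENNReal.ofReal ((C * C * 2 ^ m * v + 1) * ρ ^ m * β) := by
        refine ENNReal.ofReal_le_ofReal ?_
        have h9 : C * (C * ((2 * ρ) ^ m * v) * β) = C * C * 2 ^ m * v * ρ ^ m * β := by rw [mul_pow]; ring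
        rw [h9]
        have h10 : 0 ≤ ρ ^ m * β := by positivity
        nlinarith

end Pool.Agent.VDL
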