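import Pool.Agent.helper93.VD.SpecB1

/-!
# Project VD, block B1, row LQM (quasi-multiplicativity)
-/

set_option autoImplicit false

open scoped InnerProductSpace ContDiff Topology
open MeasureTheory Set Filter

namespace Pool.Agent.VD

theorem LQM_pl {m : ℕ} (L : ℕ → Z m →L[ℝ] Z m) (n : ℕ) : ∀ k : ℕ, pl L (n + k) = (pl (fun i => L (n + i)) k).comp (pl L n) := by
  intro k
  induction k with
  | zero =>
    show pl L n = (ContinuousLinearMap.id ℝ (Z m)).comp (pl L n)
    exact (ContinuousLinearMap.id_comp (pl L n)).symm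
  | succ k ih =>
    show (L (n + k)).comp (pl L (n + k)) = ((L (n + k)).comp (pl (fun i => L (n + i)) k)).comp (pl L n)
    rw [ih, ContinuousLinearMap.comp_assoc]

theorem LQM_proof (hLMX : LMX_stmt) (hLDE : LDE_stmt) : LQM_stmt := by
  intro m c C hc hC
  obtain ⟨K, hK1, hK⟩ := hLMX m c C hc hC
  obtain ⟨K', hK'1, hK'⟩ := hLDE m K hK1
  refine ⟨K', hK'1, ?_⟩
  intro L hL n k hn hk
  obtain ⟨X, q, hq, _, _, h3⟩ := hK (fun i => L (n + i)) L (fun i => hL (n + i)) hL k n
  obtain ⟨hqe, hX, hdB⟩ := h3 hk hn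
  obtain ⟨_, h5, h6, _⟩ := hK' (X (ContinuousLinearMap.id ℝ (Z m))) (X (ContinuousLinearMap.id ℝ (Z m))) hX hX
  rw [LQM_pl L n k, hdB]
  have e : dB (pl L n) * dB (pl (fun i => L (n + i)) k) = q := by rw [hqe]; ring
  rw [e]
  constructor
  · calc q * |(X (ContinuousLinearMap.id ℝ (Z m))).det| ≤ q * K' := mul_le_mul_of_nonneg_left h5 hq.le
      _ = K' * q := mul_comm _ _
  · calc q = q * 1 := (mul_one q).symm
      _ ≤ q * (K' * |(X (ContinuousLinearMap.id ℝ (Z m))).det|) := mul_le_mul_of_nonneg_left h6 hq.le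
      _ = K' * (q * |(X (ContinuousLinearMap.id ℝ (Z m))).det|) := by ring

end Pool.Agent.VD
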