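import Pool.Agent.helper59.VD.LPC
import Pool.Agent.helper43.VD.LDE
import Pool.Agent.helper6.VD.LMX
import Pool.Agent.helper30.VD.LDI
import Pool.Agent.helper94.VD.LQM
import Pool.Agent.helper66.VD.LGB
import Pool.Agent.helper6.VD.NFD
import Pool.Agent.helper48.VD.NWS
import Pool.Agent.helper64.VD.NBD
import Pool.Agent.helper25.VD.NRC
import Pool.Agent.helper15.VD.NDE
import Pool.Agent.helper83.VD.NSU
import Pool.Agent.helper59.VD.NSH
import Pool.Agent.helper78.VD.NDI
import Pool.Agent.helper3.VD.VDC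
import Pool.Agent.helper96.VD.VFU
import Pool.Agent.helper47.VD.NGV

/-!
# Project VD (MP_07c750_an), block B1: THE ASSEMBLY

All statements of `Pool.Agent.helper93.VD.SpecB1` (Q-hyperbolic sequences) without hypotheses.
-/

set_option autoImplicit false

namespace Pool.Agent.VD

theorem B1_LPC : LPC_stmt := LPC_proof

theorem B1_LDE : LDE_stmt := LDE_proof

theorem B1_LMX : LMX_stmt := LMX_proof B1_LPC

theorem B1_LDI : LDI_stmt := LDI_proof B1_LMX B1_LDE

theorem B1_LQM : LQM_stmt := LQM_proof B1_LMX B1_LDE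

theorem B1_LGB : LGB_stmt := LGB_proof B1_LPC B1_LQM B1_LDE

theorem B1_NFD : NFD_stmt := NFD_proof

theorem B1_NWS : NWS_stmt := NWS_proof B1_NFD

theorem B1_NBD : NBD_stmt := NBD_proof B1_NWS B1_NFD

theorem B1_NRC : NRC_stmt := NRC_proof

theorem B1_NDE : NDE_stmt := NDE_proof

theorem B1_NSU : NSU_stmt := NSU_proof B1_NBD B1_NDE

theorem B1_NSH : NSH_stmt := NSH_proof B1_NBD B1_NSU B1_NRC B1_NFD

theorem B1_NDI : NDI_stmt := NDI_proof B1_NBD B1_NDE B1_LDI B1_LPC

theorem B1_VDC : VDC_stmt := VDC_proof B1_NBD B1_NDE B1_NDI B1_NSU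

theorem B1_VFU : VFU_stmt := VFU_proof B1_VDC B1_NDE

theorem B1_NGV : NGV_stmt := NGV_proof B1_VFU B1_NDE B1_LQM

end Pool.Agent.VD
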