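import Pool.Agent.helper26.VD.SC1
import Pool.Agent.helper17.VD.SIM
import Pool.Agent.helper29.VD.SDT
import Pool.Agent.helper35.VD.SFE
import Pool.Agent.helper38.VD.GIN
import Pool.Agent.helper89.VD.SFD
import Pool.Agent.helper30.VD.SFI
import Pool.Agent.helper59.VD.SKA
import Pool.Agent.helper85.VD.SPR
import Pool.Agent.helper78.VD.SPQ
import Pool.Agent.helper83.VD.DCE
import Pool.Agent.helper20.VD.DCH
import Pool.Agent.helper92.VD.DPL
import Pool.Agent.helper30.VD.DTR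
import Pool.Agent.helper89.VD.DBA
import Pool.Agent.helper61.VD.DBX
import Pool.Agent.helper4.VD.DDK
import Pool.Agent.helper32.VD.DQM
import Pool.Agent.helper9.VDG.VLP
import Pool.Agent.helper94.VD.DTM
import Pool.Agent.helper94.VD.DVC
import Pool.Agent.helper94.VD.DPR

/-!
# Project VD (MP_07c750_an), block B3, DPR without hypotheses
-/

set_option autoImplicit false

namespace Pool.Agent.VD

theorem DPR_SFD : SFD_stmt := SFD_proof GIN_proof

theorem DPR_SFI : SFI_stmt := SFI_proof DPR_SFD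

theorem DPR_SKA : SKA_stmt := SKA_proof SC1_proof SIM_proof DPR_SFD DPR_SFI

theorem DPR_SPR : SPR_stmt := SPR_proof SC1_proof SIM_proof DPR_SFD DPR_SFI

theorem DPR_SPQ : SPQ_stmt := SPQ_proof SC1_proof DPR_SFI

theorem DPR_DTR : DTR_stmt := DTR_proof DPR_SFI DPR_SPR DPR_SPQ SDT_proof

theorem DPR_DCE : DCE_stmt := DCE_proof SFE_proof DPR_SKA DPR_DTR

theorem DPR_DDK : DDK_stmt := DDK_proof DPR_SFD DPR_SFI

theorem DPR_DPL : DPL_stmt := DPL_proof DPR_DDK DCH_proof

theorem DPR_DBX : DBX_stmt := DBX_proof DPR_SFD DPR_SFI DPR_DDK (DBA_proof B1_LDE)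

theorem DPR_DQM : DQM_stmt := DQM_proof B1_LQM B1_LGB

theorem DPR_DTM : DTM_stmt := DTM_proof SC1_proof B1_NFD DCH_proof

theorem DPR_DVC : DVC_stmt := DVC_proof SC1_proof DPR_SFI DPR_DTM VDG.VLP_proof

theorem DPR_all : DPR_stmt := DPR_proof DPR_DPL DPR_DBX DPR_DQM DPR_DCE DPR_DVC

end Pool.Agent.VD
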