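import Pool.Agent.helper84.VD.SpecB2
import Pool.Agent.helper82.VD.SpecH

/-!
# Project VD (MP_07c750_an), block B3: DETERMINANTS OF THE FLOW AGAINST BOWEN DISCS along exact orbits (input `DPR` of helper84's DOB), rows `vd:DXX`

An exact orbit `z_i = Φ_(il) z` of the unit shell, `g_i ∈ Γ` with `y_i = lft g_i z_i ∈ SK` (over `K`), frames `e_i`, charts `κ_i` (KC), exact Poincaré maps `F_i` (class `HYP`, `F_i 0 = 0`). The products of the derivatives `fderiv F_i 0` are the derivative of the flow in the coordinates `LL`; its vertical-horizontal block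
`Bx η = (D(γ Φ_t)(0, (0, η))).1` is `Bk T` plus the direction of the flow (scaling), so `|det Bx| ~ t dB T`. With the volume lemma for vertical discs (VDC) this gives the volume of the disc `{w | D (Φ_(il) z) (Φ_(il) (κ z (0, w))) ≤ ρ, i ≤ N}` from below.

RULES. Row `vd:XXX`: file `Pool/Agent/<seat>/VD/XXX.lean`, `import Pool.Agent.helper94.VD.SpecDPR`, `set_option autoImplicit false`, namespace `Pool.Agent.VD`, `open scoped ContDiff Topology InnerProductSpace ENNReal`, `open MeasureTheory Filter Set`, auxiliary lemmas prefixed `XXX_`, theorem `XXX_proof (h..) : XXX_stmt` (rows listed in `from` may be used as hypotheses `(h : YYY_stmt)`).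
No `convert`, `congr!`, `native_decide`, no double quotes, no `private`, no command starting with a sharp sign. Constants are existential: choose them as large (small) as you like.
-/

set_option autoImplicit false

open scoped ContDiff Topology InnerProductSpace ENNReal
open MeasureTheory Filter Set

namespace Pool.Agent.VD

noncomputable section

/-! ## Definitions -/

/-- the block `η ↦ (D(γ Φ_t)(q) (0, η)).1` -/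
def Bx {d : ℕ} {Γ : Type} [Group Γ] [MulAction Γ (V d)] (Φ : ℝ → P d → P d) (γ : Γ) (t : ℝ) (q : P d) : V d →L[ℝ] V d :=
  (ContinuousLinearMap.fst ℝ (V d) (V d)).comp ((fderiv ℝ (MM Φ γ) (t, q)).comp ((ContinuousLinearMap.inr ℝ ℝ (P d)).comp (ContinuousLinearMap.inr ℝ (V d) (V d))))

/-- the scaling of the geodesic flow -/
def Scl {d : ℕ} (Φ : ℝ → P d → P d) : Prop := ∀ (t l : ℝ) (p : P d), 0 < l → Φ t (p.1, l • p.2) = ((Φ (l * t) p).1, l • (Φ (l * t) p).2)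

/-- an exact Poincaré map `F` with the return time `τ` from the chart `κ` at `y` to the chart `κ'` at `y'` (frame `e'`) along `γ Φ_l` -/
structure TR {m : ℕ} {Γ : Type} [Group Γ] [MulAction Γ (V (m + 1))] (c1 C1 e2 : ℝ) (G : V (m + 1) → V (m + 1) →L[ℝ] V (m + 1)) (Φ : ℝ → P (m + 1) → P (m + 1)) (γ : Γ) (l : ℝ) (y y' : P (m + 1)) (e' : W m →L[ℝ] V (m + 1)) (κ κ' : Z m → P (m + 1)) (F : Z m → Z m) (τ : Z m → ℝ) : Prop where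
  hyp : HYP c1 C1 e2 F
  F0 : F 0 = 0
  eq : ∀ a, ‖a‖ ≤ e2 → κ' (F a) = MM Φ γ (τ a, κ a) ∧ |τ a - l| ≤ C1 * ‖a‖ ^ 2
  der : ∀ v : Z m, fderiv ℝ F 0 v = LL G y' e' (fderiv ℝ (MM Φ γ) (l, y) (0, fderiv ℝ κ 0 v))

/-- chains of exact Poincaré maps -/
structure CHN {m : ℕ} {Γ : Type} [Group Γ] [MulAction Γ (V (m + 1))] (K : Set (V (m + 1))) (C' r c1 C1 e2 l : ℝ) (G : V (m + 1) → V (m + 1) →L[ℝ] V (m + 1)) (Φ : ℝ → P (m + 1) → P (m + 1)) (g : ℕ → Γ) (y : ℕ → P (m + 1)) (e : ℕ → W m →L[ℝ] V (m + 1)) (κ : ℕ → Z m → P (m + 1)) (F : ℕ → Z m → Z m) (τ : ℕ → Z m → ℝ) : Prop where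
  ys : ∀ i, y i ∈ SK K G
  yl : ∀ i, y (i + 1) = MM Φ (g (i + 1) * (g i)⁻¹) (l, y i)
  fr : ∀ i, Frm G (y i) (e i)
  ch : ∀ i, KC C' r G (y i) (e i) (κ i)
  tr : ∀ i, TR c1 C1 e2 G Φ (g (i + 1) * (g i)⁻¹) l (y i) (y (i + 1)) (e (i + 1)) (κ i) (κ (i + 1)) (F i) (τ i)

/-! ## 1. One step -/

/-- **Row DDK** (THE DERIVATIVE OF THE CHART; short-medium; from SFD, SFI). `κ` is differentiable at `0` (`c11`), `LL G y e` is linear (SFI), so continuous. Differentiate `KC.on` at `0` (it holds for `‖a‖ ≤ r`): `LL (Dκ(0) v) = v`, `(Dκ(0) v).1 = e v.1`, so `⟪y.2, (Dκ(0) v).1⟫ = 0` (`ort`); `Ham (κ a) = 1/2` (`nrm = 1`), so `dH(Dκ(0) v) = 0` (`hs`).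
Second part: `u' = Dκ(0) (LL u) - u` has `LL u' = 0`, `⟪y.2, u'.1⟫ = 0`, `dH u' = 0`: `‖u'‖ ≤ M · 0` (SFI). Third part: `u = (0, G y.1 (e w))`: `⟪y.2, u.1⟫ = 0`; `Wc G y (0, η) = η` (`ChT G x 0 ξ = 0` by `ws`: `⟪ChT G x 0 ξ, u'⟫ = ⟪ChT G x u' ξ, 0⟫`), so `dH u = ⟪G (e w), vel⟫ = ⟪e w, G vel⟫ = ⟪e w, y.2⟫ = 0` (`dh`, `met.symm`, SFD), `LL u = (e* G 0, e* G (e w)) = (0, w)` (SFD): second part. -/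
def DDK_stmt : Prop := ∀ (m : ℕ) (C C' r : ℝ) (Γ : Type) [Group Γ] [MulAction Γ (V (m + 1))] (K : Set (V (m + 1))) (G : V (m + 1) → V (m + 1) →L[ℝ] V (m + 1)) (Φ : ℝ → P (m + 1) → P (m + 1)) (D : P (m + 1) → P (m + 1) → ℝ), 0 < r → GEO Γ K C G Φ D →
  ∀ y ∈ SK K G, ∀ (e : W m →L[ℝ] V (m + 1)) (κ : Z m → P (m + 1)), Frm G y e → KC C' r G y e κ →
    (∀ v : Z m, LL G y e (fderiv ℝ κ 0 v) = v ∧ ⟪y.2, (fderiv ℝ κ 0 v).1⟫_ℝ = 0 ∧ fderiv ℝ (Ham G) y (fderiv ℝ κ 0 v) = 0) ∧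
    (∀ u : P (m + 1), ⟪y.2, u.1⟫_ℝ = 0 → fderiv ℝ (Ham G) y u = 0 → fderiv ℝ κ 0 (LL G y e u) = u) ∧ ∀ w : W m, fderiv ℝ κ 0 (0, w) = (0, G y.1 (e w))

/-- **Row DTR** (EXACT POINCARÉ MAPS; medium; from SFI, SPR, SPQ, SDT). SPR for `j0 = 0` (`MM Φ γ (l, y) = y'`): `F, τ` with `PM M ρ r 0 l`; SPQ; `HYP` with lemma `SSE_hyp` of Pool/Agent/helper98/VD/SSE.lean (import it), `c1 = c`, `C1 = 2 M`, `e2 = min ρ ρ'`. `F0`: `‖F 0‖ ≤ M · 0`. `eq`: PM. `der`: for `‖a‖ ≤ ρ` `F a = LL y' e' (κ' (F a) - y')` (`KC.on`, `‖F a‖ ≤ r`)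
`= LL y' e' (MM Φ γ (τ a, κ a) - y')`; differentiate at `0` (`τ 0 = l` by `eq`, `κ 0 = y`; `LL` linear, continuous; `MM` smooth: `dif`): `fderiv F 0 v = LL (D MM (l, y) (Dτ(0) v, Dκ(0) v)) = LL (D MM (l, y) (0, Dκ(0) v)) + (Dτ(0) v) • LL (XH y')` (`mx`), and `LL y' e' (XH y') = 0` (SFI). -/
def DTR_stmt : Prop := ∀ (m : ℕ) (C C' r : ℝ), 1 ≤ C → 1 ≤ C' → 0 < r → ∃ c1 C1 e2 : ℝ, 0 < c1 ∧ 1 ≤ C1 ∧ 0 < e2 ∧ e2 ≤ r ∧ ∀ (Γ : Type) [Group Γ] [MulAction Γ (V (m + 1))] (K : Set (V (m + 1))) (G : V (m + 1) → V (m + 1) →L[ℝ] V (m + 1)) (Φ : ℝ → P (m + 1) → P (m + 1)) (D : P (m + 1) → P (m + 1) → ℝ), GEO Γ K C G Φ D →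
  ∀ y ∈ SK K G, ∀ y' ∈ SK K G, ∀ (e e' : W m →L[ℝ] V (m + 1)) (κ κ' : Z m → P (m + 1)), Frm G y e → Frm G y' e' → KC C' r G y e κ → KC C' r G y' e' κ' →
    ∀ (γ : Γ) (l : ℝ), 1 / 2 ≤ l → l ≤ 2 → MM Φ γ (l, y) = y' → ∃ (F : Z m → Z m) (τ : Z m → ℝ), TR c1 C1 e2 G Φ γ l y y' e' κ κ' F τ

/-- **Row DCH** (CHAIN RULE; short-medium). `MM Φ (γ' * γ) (s + t, p) = lft γ' (lft γ (Φ s (Φ t p))) = lft γ' (Φ s (lft γ (Φ t p)))` (`lm`, `fl.add`, `lf`). Differentiate in `p` (`fderiv (MM Φ γ) (t, p) (0, v) = fderiv (fun p => MM Φ γ (t, p)) p v`: `dif`, chain rule with `p ↦ (t, p)`). Third: differentiate `Ham (MM Φ γ (t, p)) = Ham p` (`hm`, `hs`). `MM Φ 1 (0, p) = p` (`l1`, `fl.zero`). -/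
def DCH_stmt : Prop := ∀ (d : ℕ) (C : ℝ) (Γ : Type) [Group Γ] [MulAction Γ (V d)] (K : Set (V d)) (G : V d → V d →L[ℝ] V d) (Φ : ℝ → P d → P d) (D : P d → P d → ℝ), GEO Γ K C G Φ D →
  (∀ (γ γ' : Γ) (s t : ℝ) (p : P d), MM Φ (γ' * γ) (s + t, p) = MM Φ γ' (s, MM Φ γ (t, p)) ∧ ∀ v : P d, fderiv ℝ (MM Φ (γ' * γ)) (s + t, p) (0, v) = fderiv ℝ (MM Φ γ') (s, MM Φ γ (t, p)) (0, fderiv ℝ (MM Φ γ) (t, p) (0, v))) ∧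
  (∀ (γ : Γ) (t : ℝ) (p v : P d), fderiv ℝ (Ham G) p v = 0 → fderiv ℝ (Ham G) (MM Φ γ (t, p)) (fderiv ℝ (MM Φ γ) (t, p) (0, v)) = 0) ∧
  ∀ p : P d, MM Φ (1 : Γ) (0, p) = p ∧ ∀ v : P d, fderiv ℝ (MM Φ (1 : Γ)) (0, p) (0, v) = v

/-! ## 2. Products and determinants -/

/-- **Row DPL** (PRODUCTS; short-medium; from DDK, DCH). Induction on `k`. `k = 0`: `g n * (g n)⁻¹ = 1`, `0 * l = 0`, DCH (last part), `LL (Dκ(0) v) = v` (DDK). Step: `u = fderiv (MM Φ (g (n+k) * (g n)⁻¹)) (k l, y n) (0, Dκ_n(0) v)` satisfies `dH u = 0` (DCH) and `⟪(y (n+k)).2, u.1⟫ = ⟪(y n).2, (Dκ_n(0) v).1⟫ = 0` (`al`, DDK), so `Dκ_(n+k)(0) (LL u) = u` (DDK) and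
`pl (k+1) v = fderiv (F (n+k)) 0 (LL u) = LL_(n+k+1) (fderiv MM (l, y (n+k)) (0, u))` (`TR.der`) `= LL_(n+k+1) (fderiv (MM Φ (g (n+k+1) * (g n)⁻¹)) (l + k l, y n) (0, Dκ_n(0) v))` (DCH; `(g (n+k+1) * (g (n+k))⁻¹) * (g (n+k) * (g n)⁻¹) = g (n+k+1) * (g n)⁻¹`). -/
def DPL_stmt : Prop := ∀ (m : ℕ) (C C' r c1 C1 e2 l : ℝ) (Γ : Type) [Group Γ] [MulAction Γ (V (m + 1))] (K : Set (V (m + 1))) (G : V (m + 1) → V (m + 1) →L[ℝ] V (m + 1)) (Φ : ℝ → P (m + 1) → P (m + 1)) (D : P (m + 1) → P (m + 1) → ℝ), 0 < r → GEO Γ K C G Φ D →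
  ∀ (g : ℕ → Γ) (y : ℕ → P (m + 1)) (e : ℕ → W m →L[ℝ] V (m + 1)) (κ : ℕ → Z m → P (m + 1)) (F : ℕ → Z m → Z m) (τ : ℕ → Z m → ℝ), CHN K C' r c1 C1 e2 l G Φ g y e κ F τ → ∀ n k : ℕ,
    y (n + k) = MM Φ (g (n + k) * (g n)⁻¹) (k * l, y n) ∧ ∀ v : Z m, pl (fun i => fderiv ℝ (F (n + i)) 0) k v = LL G (y (n + k)) (e (n + k)) (fderiv ℝ (MM Φ (g (n + k) * (g n)⁻¹)) (k * l, y n) (0, fderiv ℝ (κ n) 0 v))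

/-- **Row DBA** (determinants of block maps; short-medium; PURE; from LDE). Fix a continuous linear equivalence `ι : W m × ℝ ≃L[ℝ] V (m + 1)` (`ContinuousLinearEquiv.ofFinrankEq`). `E = (A' ι⁻¹) (ι (X × t) ι⁻¹) (ι B)` (because `E = E A B`). `det (ι Y ι⁻¹) = det Y` (`LinearMap.det_conj`), `det (X × t) = t det X` (`LinearMap.det_prodMap`). The maps `A' ι⁻¹`, with the inverse `ι B'`, and `ι B`, with the inverse `A ι⁻¹`, satisfy the hypothesis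
of LDE (dimension `m + 1`, `W (m+1) = V (m+1)`) with `K = M (‖ι‖ + ‖ι⁻¹‖ + 1)`: `|det|` between `1/K'` and `K'`. -/
def DBA_stmt : Prop := ∀ (m : ℕ) (M : ℝ), 1 ≤ M → ∃ M' : ℝ, 1 ≤ M' ∧ ∀ (X : W m →L[ℝ] W m) (t : ℝ) (E : V (m + 1) →L[ℝ] V (m + 1)) (A A' : W m × ℝ →L[ℝ] V (m + 1)) (B B' : V (m + 1) →L[ℝ] W m × ℝ),
  (∀ η, A (B η) = η) → (∀ q, B (A q) = q) → (∀ u, A' (B' u) = u) → (∀ q, B' (A' q) = q) → ‖A‖ ≤ M → ‖A'‖ ≤ M → ‖B‖ ≤ M → ‖B'‖ ≤ M → (∀ (w : W m) (s : ℝ), E (A (w, s)) = A' (X w, t * s)) →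
    |X.det| * |t| ≤ M' * |E.det| ∧ |E.det| ≤ M' * (|X.det| * |t|)

/-- **Row DBX** (THE BLOCK OF THE FLOW; medium; from SFD, SFI, DDK, DBA). `A (w, s) = G y.1 (e w) + s y.2`, `B η = (e* η, ⟪η, vel G y⟫)`, `A' (w, s) = e' w + s vel G y'`, `B' u = (e'* (G y'.1 u), ⟪y'.2, u⟫)`: `A B = id`, `A' B' = id` (SFD, first two formulas), `B A = id`, `B' A' = id` (`e* G e = id`, `e* y.2 = 0`, `⟪y.2, vel⟫ = 1`, `G vel = y.2`, `⟪G (e w), vel⟫ = ⟪e w, y.2⟫ = 0`, `ort`),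
norms bounded by `M` (`‖e‖ ≤ M` by SFI, `b0`; `vel = IG y.2`). `E = Bx Φ γ t y`. (i) `E (G y.1 (e w)) = e' (Bk T w)`: `u = D MM (0, (0, G (e w)))`, `(0, G (e w)) = Dκ(0) (0, w)` (DDK), `⟪y'.2, u.1⟫ = ⟪y.2, 0⟫ = 0` (`al`, `dH (Dκ(0) (0, w)) = 0`), `u.1 = e' (e'* G u.1)` (SFD), `Bk T w = (T (0, w)).1 = (LL G y' e' u).1 = e'* (G y'.1 u.1)`.
(ii) `E y.2 = t vel G y'`: derivative at `s = 0` of `(MM Φ γ (t, (y.1, (1 + s) y.2))).1 = γ • (Φ t (y.1, (1+s) y.2)).1 = γ • (Φ ((1+s) t) y).1 = (MM Φ γ ((1+s) t, y)).1` (`Scl`; `(lft γ p).1 = γ • p.1`), which is `t (D MM (t, y) (1, 0)).1 = t (XH G y').1` (`mx`). So `E (A (w, s)) = A' (Bk T w, t s)`: DBA with `X = Bk T`. -/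
def DBX_stmt : Prop := ∀ (m : ℕ) (C C' r : ℝ), 1 ≤ C → 1 ≤ C' → 0 < r → ∃ M : ℝ, 1 ≤ M ∧ ∀ (Γ : Type) [Group Γ] [MulAction Γ (V (m + 1))] (K : Set (V (m + 1))) (G : V (m + 1) → V (m + 1) →L[ℝ] V (m + 1)) (Φ : ℝ → P (m + 1) → P (m + 1)) (D : P (m + 1) → P (m + 1) → ℝ), GEO Γ K C G Φ D → Scl Φ →
  ∀ y ∈ SK K G, ∀ y' ∈ SK K G, ∀ (e e' : W m →L[ℝ] V (m + 1)) (κ : Z m → P (m + 1)), Frm G y e → Frm G y' e' → KC C' r G y e κ → ∀ (γ : Γ) (t : ℝ), 1 / 2 ≤ t → MM Φ γ (t, y) = y' →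
    ∀ T : Z m →L[ℝ] Z m, (∀ v : Z m, T v = LL G y' e' (fderiv ℝ (MM Φ γ) (t, y) (0, fderiv ℝ κ 0 v))) → dB T ≤ M * |(Bx Φ γ t y).det|

/-- **Row DQM** (products of determinants; short; PURE; from LQM, LGB). Induction on `b ≥ 1` (`(b + 1) * n0 = b * n0 + n0`, LQM). Second part: LGB for `m ≥ 1` (`exp (μ n) ≥ 1`), for `m = 0` the determinant of the space `W 0` is `1` (`LinearMap.det_eq_one_of_finrank_eq_zero`). -/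
def DQM_stmt : Prop := ∀ (m : ℕ) (c C : ℝ), 0 < c → 1 ≤ C → ∃ M : ℝ, 1 ≤ M ∧ ∀ L : ℕ → Z m →L[ℝ] Z m, (∀ i, LH c C (L i)) → ∀ n0 : ℕ, 1 ≤ n0 →
  (∀ b : ℕ, 1 ≤ b → dB (pl L (b * n0)) ≤ M ^ b * ∏ j ∈ Finset.range b, dB (pl (fun i => L (j * n0 + i)) n0)) ∧ 1 ≤ M * dB (pl L n0)

/-! ## 3. Chains, times, volumes -/

/-- **Row DCE** (CHAINS EXIST; short-medium; from SFE, SKA, DTR). `g i = gam (i / n0)` if `n0 ∣ i` and `i ≤ b * n0`, otherwise an element with `lft (g i) (Φ (i l) z) ∈ SK` (`cov`; `nrm (Φ t z) = nrm z` by `hm` with `γ = 1`, `l1`). `y i = lft (g i) (Φ (i l) z)`, frames from SFE, charts from SKA, `F, τ` from DTR: `MM Φ (g (i+1) * (g i)⁻¹) (l, y i) = lft (g (i+1) * (g i)⁻¹) (lft (g i) (Φ l (Φ (i l) z))) = y (i+1)` (`lf`, `lm`, `fl.add`). -/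
def DCE_stmt : Prop := ∀ (m : ℕ) (C : ℝ), 1 ≤ C → ∃ C' r c1 C1 e2 : ℝ, 1 ≤ C' ∧ 0 < r ∧ r ≤ 1 ∧ 0 < c1 ∧ 1 ≤ C1 ∧ 0 < e2 ∧ e2 ≤ r ∧ ∀ (Γ : Type) [Group Γ] [MulAction Γ (V (m + 1))] (K : Set (V (m + 1))) (G : V (m + 1) → V (m + 1) →L[ℝ] V (m + 1)) (Φ : ℝ → P (m + 1) → P (m + 1)) (D : P (m + 1) → P (m + 1) → ℝ), GEO Γ K C G Φ D →
  ∀ (z : P (m + 1)) (l : ℝ) (b n0 : ℕ) (gam : ℕ → Γ), nrm G z = 1 → 1 / 2 ≤ l → l ≤ 2 → 1 ≤ n0 → (∀ j ≤ b, lft (gam j) (Φ (j * n0 * l) z) ∈ SK K G) →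
    ∃ (g : ℕ → Γ) (y : ℕ → P (m + 1)) (e : ℕ → W m →L[ℝ] V (m + 1)) (κ : ℕ → Z m → P (m + 1)) (F : ℕ → Z m → Z m) (τ : ℕ → Z m → ℝ),
      CHN K C' r c1 C1 e2 l G Φ g y e κ F τ ∧ (∀ i : ℕ, y i = lft (g i) (Φ (i * l) z)) ∧ ∀ j ≤ b, g (j * n0) = gam j

/-- **Row DTM** (TIMES AND DISTANCES; medium; from SC1, NFD, DCH). `a_i = it F i a`, `T 0 = 0`, `T (i+1) = T i + τ i (a_i)`. Induction: `κ i (a_i) = MM Φ (g i * (g 0)⁻¹) (T i, κ 0 a)` (`TR.eq`, DCH). `|T i - i l| ≤ C1 Σ_(k<i) ‖a_k‖²` and `(c1/2) Σ_(k<i) ‖a_k‖² ≤ QQ (a_i) - QQ (a_0) ≤ 2 ρ²` (NFD with `b = 0`, `F k 0 = 0`; telescoping sum; `|QQ a| ≤ ‖a‖²`), so `s = i l - T i` has `|s| ≤ 4 C1 ρ²/c1`.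
`MM Φ (g i * (g 0)⁻¹) (i l, κ 0 a) = Φ_s (κ i (a_i)) = MM Φ 1 (s, κ i (a_i))` (DCH). `‖κ i (a_i) - y i‖ ≤ C' ρ` (SC1 (1), `κ i 0 = y i`), `‖Φ_s p - p‖ ≤ C |s|` for `p = κ i (a_i)` (`bm` with `γ = 1`, `z = z' = y i`, `t = 0`: `‖fderiv MM‖ ≤ C` on the convex ball of radius `1/C` around `(0, y i)`). `D (y i) .. ≤ D (y i) p + D p (Φ_s p) ≤ C C' ρ + C · C |s|` (`d1`, `dt`; all points within `1` of `y i`). -/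
def DTM_stmt : Prop := ∀ (m : ℕ) (C C' r c1 C1 e2 : ℝ), 1 ≤ C → 1 ≤ C' → 0 < r → 0 < c1 → 1 ≤ C1 → 0 < e2 → e2 ≤ r → ∃ M e3 : ℝ, 1 ≤ M ∧ 0 < e3 ∧ e3 ≤ e2 ∧ ∀ (Γ : Type) [Group Γ] [MulAction Γ (V (m + 1))] (K : Set (V (m + 1))) (G : V (m + 1) → V (m + 1) →L[ℝ] V (m + 1)) (Φ : ℝ → P (m + 1) → P (m + 1)) (D : P (m + 1) → P (m + 1) → ℝ), GEO Γ K C G Φ D →
  ∀ (l : ℝ) (g : ℕ → Γ) (y : ℕ → P (m + 1)) (e : ℕ → W m →L[ℝ] V (m + 1)) (κ : ℕ → Z m → P (m + 1)) (F : ℕ → Z m → Z m) (τ : ℕ → Z m → ℝ), CHN K C' r c1 C1 e2 l G Φ g y e κ F τ →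
    ∀ (N : ℕ) (a : Z m) (ρ : ℝ), 0 ≤ ρ → ρ ≤ e3 → (∀ i ≤ N, ‖it F i a‖ ≤ ρ) → ∀ i ≤ N, D (y i) (MM Φ (g i * (g 0)⁻¹) (i * l, κ 0 a)) ≤ M * ρ

/-- **Row DVC** (THE DISC IN THE CHART AND THE DISC OF THE SECTION; medium; from SC1, SFI, DTM, VDG.VLP). `S' = {w' | ∀ i ≤ N, ‖it F i (0, w')‖ ≤ ρ / M}`; `w' ∈ S'`: `‖w'‖ ≤ ρ/M` (`i = 0`). `p = κ 0 (0, w')` has `nrm p = 1`, `p.1 = (y 0).1` (`KC.on`), `‖p - y 0‖ ≤ C' ‖w'‖` (SC1). `u = lft (g 0)⁻¹ p`: `nrm u = 1` (`hm` with `t = 0`), `u.1 = (g 0)⁻¹ • (y 0).1 = z.1` (`y 0 = lft (g 0) (Φ 0 z)`, `(lft γ q).1 = γ • q.1`),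
`D z u = D (y 0) p ≤ C C' ‖w'‖ ≤ e0` (`di`, `d1`): `u = κs z (0, w)`, `‖w‖ ≤ Cs D z u ≤ e0` (`SEC.ver`). Put `θ w' = w`. `D (Φ (i l) z) (Φ (i l) u) = D (lft (g i) ..) (lft (g i) ..) = D (y i) (MM Φ (g i * (g 0)⁻¹) (i l, κ 0 (0, w'))) ≤ M' ρ/M ≤ ρ` (DTM): `θ` maps `S'` into the disc of the section. Inverse Lipschitz: `w' = (LL (κ 0 (0, w') - y 0)).2` (`KC.on`), so `‖w'_1 - w'_2‖ ≤ M'' ‖p_1 - p_2‖` (SFI)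
`≤ M'' C D p_1 p_2` (`d2`) `= M'' C D u_1 u_2 ≤ M'' C Cs ‖w_1 - w_2‖` (`cmp`). VLP for the inverse of `θ` on `θ '' S'` (`E = E' = W m`): `volume S' ≤ k (M'' C Cs)^m volume (θ '' S')`. -/
def DVC_stmt : Prop := ∀ (m : ℕ) (C C' r c1 C1 e2 cs Cs e0 e1 : ℝ), 1 ≤ C → 1 ≤ C' → 0 < r → 0 < c1 → 1 ≤ C1 → 0 < e2 → e2 ≤ r → 1 ≤ Cs → 0 < e0 → 0 < e1 → ∃ M e4 : ℝ, 1 ≤ M ∧ 0 < e4 ∧ ∀ (Γ : Type) [Group Γ] [MulAction Γ (V (m + 1))] (K : Set (V (m + 1))) (G : V (m + 1) → V (m + 1) →L[ℝ] V (m + 1)) (Φ : ℝ → P (m + 1) → P (m + 1)) (D : P (m + 1) → P (m + 1) → ℝ) (κs : P (m + 1) → Z m → P (m + 1)),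
  GEO Γ K C G Φ D → SEC cs Cs e0 e1 (Shl G) D Φ κs → ∀ (l : ℝ) (g : ℕ → Γ) (y : ℕ → P (m + 1)) (e : ℕ → W m →L[ℝ] V (m + 1)) (κ : ℕ → Z m → P (m + 1)) (F : ℕ → Z m → Z m) (τ : ℕ → Z m → ℝ) (z : P (m + 1)), CHN K C' r c1 C1 e2 l G Φ g y e κ F τ → nrm G z = 1 → (∀ i : ℕ, y i = lft (g i) (Φ (i * l) z)) →
    ∀ (N : ℕ) (ρ : ℝ), 0 < ρ → ρ ≤ e4 → volume {w : W m | ∀ i ≤ N, ‖it F i (0, w)‖ ≤ ρ / M} ≤ ENNReal.ofReal M * volume {w : W m | ‖w‖ ≤ e0 ∧ ∀ i ≤ N, D (Φ (i * l) z) (Φ (i * l) (κs z (0, w))) ≤ ρ}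

/-- **Row DPR** (OUTPUT for DOB; medium; from DPL, DBX, DQM, DCE, DVC, LPC, NDE, VDC, LQM, LGB). Chain of DCE, `L_i = fderiv (F i) 0`, `T_j = pl (fun i => L (j n0 + i)) n0`, `t = n0 l ≥ 1/2`: DPL (`n = j n0`, `k = n0`) and DBX give `dB T_j ≤ M |det Bx_j|`, `1 ≤ M dB T_j` (DQM): (1). (2): `N = b n0 ≥ 1`, VDC with `x = 0` at the radius `ρ/M`: `(ρ/M)^m / M ≤ dB (fderiv (it F N) 0) * volume {w | ∀ i ≤ N, ‖it F i (0, w)‖ ≤ ρ/M}`,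
`fderiv (it F N) 0 = pl L N` (NDE; lemma `B1X_fd` of Pool/Agent/helper94/VD/B1X.lean), `dB (pl L N) ≤ M^b ∏ dB T_j ≤ M^(2b) ∏ |det Bx_j|` (DQM), and DVC. -/
def DPR_stmt : Prop := ∀ (m : ℕ) (C cs Cs e0 e1 : ℝ), 1 ≤ C → ∃ K1 ρ0 : ℝ, 1 ≤ K1 ∧ 0 < ρ0 ∧ ∀ (Γ : Type) [Group Γ] [MulAction Γ (V (m + 1))] (K : Set (V (m + 1))) (G : V (m + 1) → V (m + 1) →L[ℝ] V (m + 1)) (Φ : ℝ → P (m + 1) → P (m + 1)) (D : P (m + 1) → P (m + 1) → ℝ) (κs : P (m + 1) → Z m → P (m + 1)),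
  GEO Γ K C G Φ D → Scl Φ → SEC cs Cs e0 e1 (Shl G) D Φ κs → ∀ (z : P (m + 1)) (l : ℝ) (b n0 : ℕ) (gam : ℕ → Γ), nrm G z = 1 → 3 / 4 ≤ l → l ≤ 5 / 4 → 1 ≤ b → 1 ≤ n0 → (∀ j ≤ b, lft (gam j) (Φ (j * n0 * l) z) ∈ SK K G) →
    (∀ j < b, 1 ≤ K1 * |(Bx Φ (gam (j + 1) * (gam j)⁻¹) (n0 * l) (lft (gam j) (Φ (j * n0 * l) z))).det|) ∧
    ∀ ρ : ℝ, 0 < ρ → ρ ≤ ρ0 → ENNReal.ofReal (ρ ^ m) ≤ ENNReal.ofReal (K1 ^ b * ∏ j ∈ Finset.range b, |(Bx Φ (gam (j + 1) * (gam j)⁻¹) (n0 * l) (lft (gam j) (Φ (j * n0 * l) z))).det|) *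
      volume {w : W m | ‖w‖ ≤ e0 ∧ ∀ i ≤ b * n0, D (Φ (i * l) z) (Φ (i * l) (κs z (0, w))) ≤ ρ}

end

end Pool.Agent.VD
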