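import Pool.Agent.helper62.VD.SpecE2

/-!
# Project VD (MP_07c750_an), block B4: the local weak law

A ball of radius `1/8` of phase space is covered by finitely many (a number which depends only on `Γ`, `K`, `C`) translates of the fundamental domain, so invariant sets have in such a ball at most `n0` times the measure which they have on `M`.
-/

set_option autoImplicit false

open MeasureTheory Filter Set Topology
open scoped ENNReal ContDiff InnerProductSpace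

namespace Pool.Agent.VDE

open VD

noncomputable section

/-- **LLW** (the local weak law, abstract form): invariant measurable sets in balls of radius `1/8` -/
def LLW_stmt : Prop := ∀ (d : ℕ) (Γ : Type) [Group Γ] [MulAction Γ (V d)] (K : Set (V d)) (C : ℝ), 1 ≤ d → FdK Γ K → 0 ≤ C → ∃ n0 : ℕ, 1 ≤ n0 ∧ ∀ (F0 : Set (V d)) (G : V d → V d →L[ℝ] V d) (Φ : ℝ → P d → P d) (dd : P d → P d → ℝ), FlD Γ K F0 G Φ C dd →
  ∀ (x : P d) (A : Set (P d)), nrm G x ≤ 2 → MeasurableSet A → (∀ (γ : Γ) (p : P d), lft γ p ∈ A ↔ p ∈ A) → liou G ({y | dd x y ≤ 1 / 8} ∩ A) ≤ n0 * liou G ({p | p.1 ∈ F0} ∩ A)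

/-- **LLU** (the local weak law) -/
def LLU_stmt : Prop := ∀ (d : ℕ) (Γ : Type) [Group Γ] [MulAction Γ (V d)] (K : Set (V d)) (C : ℝ), 1 ≤ d → FdK Γ K → 0 ≤ C → ∃ n0 : ℕ, 1 ≤ n0 ∧ ∀ (F0 : Set (V d)) (G : V d → V d →L[ℝ] V d) (Φ : ℝ → P d → P d) (dd : P d → P d → ℝ), FlD Γ K F0 G Φ C dd →
  ∀ h : V d → ℝ, THV Γ h → ∀ (e v0 T0 : ℝ), UWLD F0 G Φ h e v0 T0 → ∀ x : P d, nrm G x ≤ 2 →
    liou G {y | dd x y ≤ 1 / 8 ∧ e ≤ |avV Φ h T0 y - mnV F0 G h|} ≤ n0 * ENNReal.ofReal v0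

theorem LLW_proof (hSLF : SLF_stmt) (hSLI : SLI_stmt) : LLW_stmt := by
  intro d Γ _ _ K C hd hK hC
  have hLc : IsCompact (Metric.cthickening (C / 8) K ∪ K) := hK.compact.cthickening.union hK.compact
  have hfin := hK.proper _ hLc
  refine ⟨hfin.toFinset.card + 1, by omega, ?_⟩
  intro F0 G Φ dd hF x A hx hA hinv
  obtain ⟨_, hlft⟩ := hSLI d Γ K F0 G Φ C dd hd hF
  have hshell := (hSLF d G hF.met).2.2
  obtain ⟨γ0, hγ0⟩ := hK.cover x.1
  -- translate to `K`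
  have hcont : ∀ z : P d, Continuous fun y : P d => dd z y := fun z => hF.dis.cont.comp (continuous_const.prodMk continuous_id)
  have hm1 : MeasurableSet ({y : P d | dd (lft γ0 x) y ≤ 1 / 8} ∩ A) := ((isClosed_le (hcont (lft γ0 x)) continuous_const).measurableSet).inter hA
  have h1 : {y : P d | dd x y ≤ 1 / 8} ∩ A = lft γ0 ⁻¹' ({y : P d | dd (lft γ0 x) y ≤ 1 / 8} ∩ A) := by
    ext y
    constructor
    · rintro ⟨h2, h3⟩
      refine ⟨?_, (hinv γ0 y).mpr h3⟩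
      show dd (lft γ0 x) (lft γ0 y) ≤ 1 / 8
      rw [hF.dis.inv]
      exact h2
    · rintro ⟨h2, h3⟩
      refine ⟨?_, (hinv γ0 y).mp h3⟩
      have h4 : dd (lft γ0 x) (lft γ0 y) ≤ 1 / 8 := h2
      rw [hF.dis.inv] at h4
      exact h4
  have h2 : liou G ({y : P d | dd x y ≤ 1 / 8} ∩ A) = liou G ({y : P d | dd (lft γ0 x) y ≤ 1 / 8} ∩ A) := by
    rw [h1]
    exact (hlft γ0).measure_preimage hm1.nullMeasurableSet
  -- the cover
  have hm2 : MeasurableSet ({p : P d | p.1 ∈ F0} ∩ A) := (hF.fdx.meas.preimage measurable_fst).inter hA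
  have h3 : {y : P d | dd (lft γ0 x) y ≤ 1 / 8} ∩ A ⊆ {p : P d | nrm G p ≠ 1} ∪ ⋃ γ ∈ hfin.toFinset, lft γ ⁻¹' ({p : P d | p.1 ∈ F0} ∩ A) := by
    rintro y ⟨hy, hyA⟩
    by_cases hy1 : nrm G y = 1
    · right
      have h4 : ‖lft γ0 x - y‖ ≤ C * dd (lft γ0 x) y := hF.dis.lo (lft γ0 x) y hγ0 (by rw [hF.ln]; exact hx) (by rw [hy1]; norm_num) (le_trans hy (by norm_num))
      have h5 : ‖lft γ0 x - y‖ ≤ C / 8 := by
        have h6 : dd (lft γ0 x) y ≤ 1 / 8 := hy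
        have h7 : C * dd (lft γ0 x) y ≤ C * (1 / 8) := mul_le_mul_of_nonneg_left h6 hC
        linarith
      have h6 : y.1 ∈ Metric.cthickening (C / 8) K := by
        refine Metric.mem_cthickening_of_dist_le y.1 (lft γ0 x).1 (C / 8) K hγ0 ?_
        rw [dist_comm, dist_eq_norm]
        exact (norm_fst_le (lft γ0 x - y)).trans h5
      obtain ⟨γ, hγ, _⟩ := hF.fdx.uniq y.1
      rw [mem_iUnion₂]
      refine ⟨γ, ?_, ?_, (hinv γ y).mpr hyA⟩
      · rw [Set.Finite.mem_toFinset]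
        exact ⟨y.1, Or.inl h6, Or.inr (hF.fdx.sub hγ)⟩
      · exact hγ
    · left
      exact hy1
  rw [h2]
  calc liou G ({y : P d | dd (lft γ0 x) y ≤ 1 / 8} ∩ A)
      ≤ liou G ({p : P d | nrm G p ≠ 1} ∪ ⋃ γ ∈ hfin.toFinset, lft γ ⁻¹' ({p : P d | p.1 ∈ F0} ∩ A)) := measure_mono h3
    _ ≤ liou G {p : P d | nrm G p ≠ 1} + liou G (⋃ γ ∈ hfin.toFinset, lft γ ⁻¹' ({p : P d | p.1 ∈ F0} ∩ A)) := measure_union_le _ _
    _ ≤ 0 + ∑ γ ∈ hfin.toFinset, liou G (lft γ ⁻¹' ({p : P d | p.1 ∈ F0} ∩ A)) := by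
        rw [hshell]
        gcongr
        exact measure_biUnion_finset_le _ _
    _ = ∑ _γ ∈ hfin.toFinset, liou G ({p : P d | p.1 ∈ F0} ∩ A) := by
        rw [zero_add]
        exact Finset.sum_congr rfl fun γ _ => (hlft γ).measure_preimage hm2.nullMeasurableSet
    _ = (hfin.toFinset.card : ENNReal) * liou G ({p : P d | p.1 ∈ F0} ∩ A) := by
        rw [Finset.sum_const, nsmul_eq_mul]
    _ ≤ ((hfin.toFinset.card + 1 : ℕ) : ENNReal) * liou G ({p : P d | p.1 ∈ F0} ∩ A) := by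
        gcongr
        exact Nat.le_succ _

theorem LLU_proof (hLLW : LLW_stmt) : LLU_stmt := by
  intro d Γ _ _ K C hd hK hC
  obtain ⟨n0, hn0, hW⟩ := hLLW d Γ K C hd hK hC
  refine ⟨n0, hn0, ?_⟩
  intro F0 G Φ dd hF h hh e v0 T0 hU x hx
  have hav : Continuous fun p : P d => avV Φ h T0 p := by
    unfold avV
    refine continuous_const.mul ?_
    have h1 : Continuous (Function.uncurry fun (p : P d) (s : ℝ) => h (Φ s p).1) := by
      have h2 : Continuous fun q : P d × ℝ => Φ q.2 q.1 := hF.flow.smooth.continuous.comp (continuous_snd.prodMk continuous_fst)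
      exact hh.cont.comp (continuous_fst.comp h2)
    exact intervalIntegral.continuous_parametric_intervalIntegral_of_continuous' h1 0 T0
  have hA : MeasurableSet {y : P d | e ≤ |avV Φ h T0 y - mnV F0 G h|} := (isClosed_le continuous_const (hav.sub continuous_const).abs).measurableSet
  have hinv : ∀ (γ : Γ) (p : P d), lft γ p ∈ {y : P d | e ≤ |avV Φ h T0 y - mnV F0 G h|} ↔ p ∈ {y : P d | e ≤ |avV Φ h T0 y - mnV F0 G h|} := by
    intro γ p
    have h1 : avV Φ h T0 (lft γ p) = avV Φ h T0 p := by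
      unfold avV
      congr 1
      refine intervalIntegral.integral_congr fun s _ => ?_
      show h (Φ s (lft γ p)).1 = h (Φ s p).1
      rw [hF.fe]
      exact hh.inv γ _
    show e ≤ |avV Φ h T0 (lft γ p) - mnV F0 G h| ↔ e ≤ |avV Φ h T0 p - mnV F0 G h|
    rw [h1]
  have h2 := hW F0 G Φ dd hF x _ hx hA hinv
  calc liou G {y | dd x y ≤ 1 / 8 ∧ e ≤ |avV Φ h T0 y - mnV F0 G h|}
      = liou G ({y | dd x y ≤ 1 / 8} ∩ {y : P d | e ≤ |avV Φ h T0 y - mnV F0 G h|}) := rfl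
    _ ≤ n0 * liou G ({p | p.1 ∈ F0} ∩ {y : P d | e ≤ |avV Φ h T0 y - mnV F0 G h|}) := h2
    _ ≤ n0 * ENNReal.ofReal v0 := by
        gcongr
        exact hU

end

end Pool.Agent.VDE
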