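import Pool.Agent.helper93.VD.SpecB4b
import Pool.Agent.helper94.VD.LLW

/-!
# Project VD (MP_07c750_an), block B4, row LLW: the measure of an invariant set in a ball
-/

set_option autoImplicit false

open MeasureTheory Filter Set Topology
open scoped ENNReal

namespace Pool.Agent.VDL

open Pool.Agent.VDE (BB av FlD UWLD mnV avV liou FDX)
open Pool.Agent.VD (W Z V P nrm lft FdK)

/-- the constant can be enlarged -/
theorem LLW_mono {Γ : Type} {d : ℕ} [Group Γ] [MulAction Γ (V d)] (K F0 : Set (V d)) (G : V d → V d →L[ℝ] V d) (Φ : ℝ → P d → P d) (C C' : ℝ) (dd : P d → P d → ℝ) (hC : C ≤ C')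
    (h : FlD Γ K F0 G Φ C dd) : FlD Γ K F0 G Φ C' dd := by
  refine ⟨h.fdk, h.fdx, h.met, h.flow, ⟨h.dis.cont, h.dis.nn, h.dis.zero, h.dis.symm, h.dis.tri, h.dis.inv, ?_, ?_⟩, h.one, h.mul, h.lc, h.lm, h.ln, h.fn, h.fe, h.fs, h.fm⟩
  · intro p q h1 h2 h3 h4
    exact (h.dis.lo p q h1 h2 h3 h4).trans (mul_le_mul_of_nonneg_right hC (h.dis.nn p q))
  · intro p q h1 h2 h3 h4
    exact (h.dis.up p q h1 h2 h3 h4).trans (mul_le_mul_of_nonneg_right hC (norm_nonneg _))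

theorem LLW_proof (hSLF : VDE.SLF_stmt) (hSLI : VDE.SLI_stmt) : LLW_stmt := by
  intro d Γ _ _ K C hd
  by_cases hK : FdK Γ K
  · obtain ⟨n0, hn0, hW⟩ := VDE.LLW_proof hSLF hSLI d Γ K (max C 0) hd hK (le_max_right _ _)
    refine ⟨n0, hn0, ?_⟩
    intro F0 G Φ dd hF x A hx hA hinv
    have h1 := hW F0 G Φ dd (LLW_mono K F0 G Φ C (max C 0) dd (le_max_left _ _) hF) x A (by rw [hx]; norm_num) hA (fun γ p => (hinv γ p).symm)
    refine (measure_mono ?_).trans h1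
    intro y hy
    exact ⟨hy.1.2, hy.2⟩
  · refine ⟨1, le_rfl, ?_⟩
    intro F0 G Φ dd hF
    exact absurd hF.fdk hK

end Pool.Agent.VDL
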